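import Mathlib

set_option autoImplicit false
set_option linter.unusedSectionVars false

/-! Steiner systems on sets of words, invariant under permutations of positions. -/

namespace Pool.Agent.H782.Ste

open Finset

/-- `𝓑` is the set of the blocks of a Steiner system with block size `q` and strength `r` on the
point set `V`: the blocks have `q` points and every set of `r` points is contained in exactly one
block. -/
structure IsSteiner {V : Type} (𝓑 : Set (Finset V)) (q r : ℕ) : Prop where
  card_block : ∀ B ∈ 𝓑, B.card = q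
  exists_unique : ∀ R : Finset V, R.card = r → ∃! B, B ∈ 𝓑 ∧ R ⊆ B

/-- `𝓑` is a set of blocks of words, indexed by the positions `P`. Every even permutation of the
positions which fixes the positions outside `I` takes blocks to blocks. -/
def EvenSymmetricOn {P A : Type} [Fintype P] [DecidableEq P] [DecidableEq (P → A)] (I : Finset P)
    (𝓑 : Set (Finset (P → A))) : Prop :=
  ∀ σ : Equiv.Perm P, (∀ i, i ∉ I → σ i = i) → Equiv.Perm.sign σ = 1 →
    ∀ B ∈ 𝓑, B.image (fun x => x ∘ σ) ∈ 𝓑

/-- Every permutation of the positions takes blocks to blocks. -/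
def PositionSymmetric {P A : Type} [DecidableEq (P → A)] (𝓑 : Set (Finset (P → A))) : Prop :=
  ∀ σ : Equiv.Perm P, ∀ B ∈ 𝓑, B.image (fun x => x ∘ σ) ∈ 𝓑

section

variable {P A : Type} [Fintype P] [DecidableEq P] [DecidableEq A]

lemma PositionSymmetric.even {𝓑 : Set (Finset (P → A))} (h : PositionSymmetric 𝓑) (I : Finset P) :
    EvenSymmetricOn I 𝓑 := fun σ _ _ => h σ

/-- The fibres of `π` are single positions outside `I` and large subsets of `I`. -/
structure Adm (I : Finset P) (q : ℕ) {T : Type} [DecidableEq T] (π : P → T) : Prop where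
  sep : ∀ i j, π i = π j → i ≠ j → i ∈ I
  large : ∀ i ∈ I, 2 * q + 2 < (univ.filter (fun j => π j = π i)).card

lemma swap_mem {I : Finset P} {𝓑 : Set (Finset (P → A))} {q r : ℕ} (h : IsSteiner 𝓑 q r)
    (hs : EvenSymmetricOn I 𝓑) {R : Finset (P → A)} (hR : R.card = r) {B : Finset (P → A)}
    (hB : B ∈ 𝓑) (hRB : R ⊆ B) (σ : Equiv.Perm P) (hI : ∀ i, i ∉ I → σ i = i)
    (hsg : Equiv.Perm.sign σ = 1) (hσ : ∀ w ∈ R, w ∘ σ = w) {z : P → A}
    (hz : z ∈ B) : z ∘ σ ∈ B := by
  have h1 : R ⊆ B.image (fun x => x ∘ σ) := by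
    intro w hw
    exact mem_image.2 ⟨w, hRB hw, hσ w hw⟩
  have h2 := (h.exists_unique R hR).unique ⟨hs σ hI hsg B hB, h1⟩ ⟨hB, hRB⟩
  rw [← h2]
  exact mem_image.2 ⟨z, hz, rfl⟩

/-- If the points of `R` are constant on the fibres of `π`, then all points of the block through `R`
are constant on the fibres. -/
lemma factor {I : Finset P} {𝓑 : Set (Finset (P → A))} {q r : ℕ} (h : IsSteiner 𝓑 q r)
    (hs : EvenSymmetricOn I 𝓑) {T : Type} [DecidableEq T] {π : P → T} (hπ : Adm I q π)
    {R : Finset (P → A)} (hR : R.card = r) (hRπ : ∀ w ∈ R, ∀ i j, π i = π j → w i = w j)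
    {B : Finset (P → A)} (hB : B ∈ 𝓑) (hRB : R ⊆ B) :
    ∀ z ∈ B, ∀ i j, π i = π j → z i = z j := by
  intro z hz i j hij
  by_contra hne
  have hneij : i ≠ j := fun h => hne (by rw [h])
  have hiI : i ∈ I := hπ.sep i j hij hneij
  have hfI : ∀ l, π l = π i → l ∈ I := by
    intro l hl
    by_cases hli : l = i
    · rw [hli]; exact hiI
    · exact hπ.sep l i hl hli
  have hmem : ∀ a l c, π a = π i → π l = π i → π c = π i → a ≠ l → a ≠ c →
      z ∘ (Equiv.swap a l * Equiv.swap a c : Equiv.Perm P) ∈ B := by
    intro a l c ha hl hc hal' hac'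
    have hsw : ∀ b d x : P, x ≠ b → x ≠ d → Equiv.swap b d x = x := fun b d x =>
      Equiv.swap_apply_of_ne_of_ne
    apply swap_mem h hs hR hB hRB _ _ _ _ hz
    · intro x hx
      have h1 : x ≠ a := fun h => hx (by rw [h]; exact hfI a ha)
      have h2 : x ≠ l := fun h => hx (by rw [h]; exact hfI l hl)
      have h3 : x ≠ c := fun h => hx (by rw [h]; exact hfI c hc)
      rw [Equiv.Perm.mul_apply, hsw a c x h1 h3, hsw a l x h1 h2]
    · rw [Equiv.Perm.sign_mul, Equiv.Perm.sign_swap hal', Equiv.Perm.sign_swap hac']; rfl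
    intro w hw
    have key : ∀ b d x, π b = π d → π (Equiv.swap b d x) = π x := by
      intro b d x hbd
      by_cases hxa : x = b
      · subst hxa; rw [Equiv.swap_apply_left]; exact hbd.symm
      · by_cases hxl : x = d
        · subst hxl; rw [Equiv.swap_apply_right]; exact hbd
        · rw [Equiv.swap_apply_of_ne_of_ne hxa hxl]
    funext x
    apply hRπ w hw
    rw [Equiv.Perm.mul_apply, key _ _ _ (ha.trans hl.symm), key _ _ _ (ha.trans hc.symm)]
  set Q := univ.filter (fun l => π l = π i) with hQ
  have h5 : 2 * q + 2 < Q.card := hπ.large i hiI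
  have hcard := card_filter_add_card_filter_not (s := Q) (fun l => z l = z i)
  have hBq := h.card_block B hB
  -- the general counting step
  have step : ∀ a : P, π a = π i → ∀ S : Finset P, (∀ l ∈ S, π l = π i ∧ z l ≠ z a) →
      S.card ≤ q + 1 := by
    intro a ha S hS
    obtain ⟨c, hc⟩ : (Q.erase a).Nonempty := by
      rw [← card_pos]
      have := pred_card_le_card_erase (s := Q) (a := a)
      omega
    rw [mem_erase, hQ, mem_filter] at hc
    have h1 : (S.erase c).card ≤ q := by
      rw [← hBq]
      apply card_le_card_of_injOn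
        (fun l => z ∘ (Equiv.swap a l * Equiv.swap a c : Equiv.Perm P))
      · intro l hl
        rw [mem_coe, mem_erase] at hl
        have hal : a ≠ l := fun h => (hS l hl.2).2 (by rw [h])
        exact hmem a l c ha (hS l hl.2).1 hc.2.2 hal (Ne.symm hc.1)
      · intro l hl l' hl' hll
        by_contra hne2
        rw [mem_coe, mem_erase] at hl hl'
        have hal : l ≠ a := fun h => (hS l hl.2).2 (by rw [h])
        have h3 := congrFun hll l
        simp only [Function.comp, Equiv.Perm.mul_apply] at h3
        rw [Equiv.swap_apply_of_ne_of_ne hal hl.1, Equiv.swap_apply_right,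
          Equiv.swap_apply_of_ne_of_ne hal hne2] at h3
        exact (hS l hl.2).2 h3.symm
    have h2 := pred_card_le_card_erase (s := S) (a := c)
    omega
  have h1 : (Q.filter (fun l => ¬ z l = z i)).card ≤ q + 1 := by
    apply step i rfl
    intro l hl
    rw [mem_filter, hQ, mem_filter] at hl
    exact ⟨hl.1.2, hl.2⟩
  have h2 : (Q.filter (fun l => z l = z i)).card ≤ q + 1 := by
    apply step j hij.symm
    intro l hl
    rw [mem_filter, hQ, mem_filter] at hl
    exact ⟨hl.1.2, by rw [hl.2]; exact hne⟩
  omega

/-- the Steiner system of the words which are constant on the fibres of `π` -/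
def restrict (𝓑 : Set (Finset (P → A))) {T : Type} (π : P → T) : Set (Finset (T → A)) :=
  {B | B.image (fun w => w ∘ π) ∈ 𝓑}

lemma comp_inj {T : Type} {π : P → T} (hsurj : Function.Surjective π) :
    Function.Injective (fun w : T → A => w ∘ π) := hsurj.injective_comp_right

lemma restrict_steiner {I : Finset P} {𝓑 : Set (Finset (P → A))} {q r : ℕ} (h : IsSteiner 𝓑 q r)
    (hs : EvenSymmetricOn I 𝓑) {T : Type} [DecidableEq T] {π : P → T}
    (hsurj : Function.Surjective π) (hπ : Adm I q π) : IsSteiner (restrict 𝓑 π) q r := by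
  classical
  constructor
  · intro B hB
    rw [← h.card_block _ hB, card_image_of_injective _ (comp_inj hsurj)]
  · intro R hR
    have hR' : (R.image (fun w => w ∘ π)).card = r := by
      rw [card_image_of_injective _ (comp_inj hsurj), hR]
    obtain ⟨B', ⟨hB'1, hB'2⟩, hB'3⟩ := h.exists_unique _ hR'
    have hf := factor h hs hπ hR' (by
      intro w hw i j hij
      obtain ⟨v, -, rfl⟩ := mem_image.1 hw
      simp only [Function.comp, hij]) hB'1 hB'2
    have himg : (B'.image (fun z t => z (Function.surjInv hsurj t))).image (fun w => w ∘ π) = B' := by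
      ext z
      simp only [mem_image, exists_exists_and_eq_and]
      constructor
      · rintro ⟨y, hy, rfl⟩
        have : (fun t => y (Function.surjInv hsurj t)) ∘ π = y := by
          funext i
          exact hf y hy _ _ (Function.surjInv_eq hsurj (π i))
        rw [this]; exact hy
      · intro hz
        refine ⟨z, hz, ?_⟩
        funext i
        exact hf z hz _ _ (Function.surjInv_eq hsurj (π i))
    refine ⟨B'.image (fun z t => z (Function.surjInv hsurj t)), ⟨?_, ?_⟩, ?_⟩
    · show _ ∈ 𝓑
      rw [himg]; exact hB'1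
    · rw [← image_subset_image_iff (comp_inj hsurj), himg]
      exact hB'2
    · rintro C ⟨hC1, hC2⟩
      apply image_injective (comp_inj hsurj)
      show C.image _ = image _ _
      rw [himg]
      exact hB'3 _ ⟨hC1, image_subset_image hC2⟩

end

end Pool.Agent.H782.Ste
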