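import Pool.Agent.H782.Ste.Sharp

set_option autoImplicit false
set_option linter.unusedSectionVars false

/-! Families of sets of binary operations which are closed under substitution. -/

namespace Pool.Agent.H782.Ste

open Finset

variable {A C : Type} [Fintype A] [DecidableEq A] [DecidableEq C]

/-- binary operations with a tag -/
abbrev Op (A C : Type) : Type := (A × A → A) × C

/-- the value of a tagged operation at the reference pair -/
def val (o : (A × C) × (A × C)) (f : Op A C) : A × C := (f.1 (o.1.1, o.2.1), f.2)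

/-- For every pair `o` of tagged letters there is a set `F o` of `q` tagged binary operations,
containing the two projections with the tags of `o`; two different elements `g`, `h` of `F o` define
a permutation of `A × A`, which takes the elements of `F` at the values of `g`, `h` to those of
`F o`. -/
structure Coherent (F : (A × C) × (A × C) → Finset (Op A C)) (q : ℕ) : Prop where
  card : ∀ o, (F o).card = q
  fst : ∀ o : (A × C) × (A × C), (Prod.fst, o.1.2) ∈ F o
  snd : ∀ o : (A × C) × (A × C), (Prod.snd, o.2.2) ∈ F o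
  bij : ∀ o, ∀ g ∈ F o, ∀ h ∈ F o, g ≠ h → Function.Bijective (fun s : A × A => (g.1 s, h.1 s))
  comp : ∀ o, ∀ g ∈ F o, ∀ h ∈ F o, g ≠ h → ∀ f : Op A C,
    f ∈ F (val o g, val o h) ↔ (fun s => f.1 (g.1 s, h.1 s), f.2) ∈ F o

/-- the number of operations with the value `c` at the reference pair -/
def M (F : (A × C) × (A × C) → Finset (Op A C)) (o : (A × C) × (A × C)) (c : A × C) : ℕ :=
  ((F o).filter (fun g => val o g = c)).card

/-- the number of pairs of operations with the value `t'` at the reference pair -/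
def N (F : (A × C) × (A × C) → Finset (Op A C)) (o o' : (A × C) × (A × C)) : ℕ :=
  (((F o) ×ˢ (F o)).filter (fun gh => gh.1 ≠ gh.2 ∧ (val o gh.1, val o gh.2) = o')).card

lemma N_off (F : (A × C) × (A × C) → Finset (Op A C)) (o : (A × C) × (A × C)) {c c' : A × C}
    (h : c ≠ c') : N F o (c, c') = M F o c * M F o c' := by
  unfold N M
  rw [← card_product]
  congr 1
  ext ⟨g, k⟩
  simp only [mem_filter, mem_product]
  constructor
  · rintro ⟨⟨h1, h2⟩, h3, h4⟩
    rw [Prod.mk.injEq] at h4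
    exact ⟨⟨h1, h4.1⟩, h2, h4.2⟩
  · rintro ⟨⟨h1, h4⟩, h2, h5⟩
    refine ⟨⟨h1, h2⟩, ?_, by rw [h4, h5]⟩
    rintro rfl
    exact h (h4.symm.trans h5)

lemma N_diag (F : (A × C) × (A × C) → Finset (Op A C)) (o : (A × C) × (A × C)) (c : A × C) :
    N F o (c, c) = M F o c * M F o c - M F o c := by
  unfold N M
  rw [← offDiag_card]
  congr 1
  ext ⟨g, k⟩
  simp only [mem_filter, mem_product, mem_offDiag]
  constructor
  · rintro ⟨⟨h1, h2⟩, h3, h4⟩
    rw [Prod.mk.injEq] at h4
    exact ⟨⟨h1, h4.1⟩, ⟨h2, h4.2⟩, h3⟩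
  · rintro ⟨⟨h1, h4⟩, ⟨h2, h5⟩, h3⟩
    exact ⟨⟨h1, h2⟩, h3, by rw [h4, h5]⟩

lemma Coherent.M_eq {F : (A × C) × (A × C) → Finset (Op A C)} {q : ℕ} (hF : Coherent F q)
    {o : (A × C) × (A × C)} {g h : Op A C} (hg : g ∈ F o) (hh : h ∈ F o) (hgh : g ≠ h)
    (c : A × C) : M F (val o g, val o h) c = M F o c := by
  unfold M
  have hb := hF.bij o g hg h hh hgh
  obtain ⟨ψ, hψ⟩ : ∃ ψ : A × A → A × A, ∀ s, ψ (g.1 s, h.1 s) = s :=
    ⟨(Equiv.ofBijective _ hb).symm, fun s => (Equiv.ofBijective _ hb).symm_apply_apply s⟩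
  apply card_bij (fun f _ => ((fun s => f.1 (g.1 s, h.1 s), f.2) : Op A C))
  · intro f hf
    rw [mem_filter] at hf ⊢
    exact ⟨(hF.comp o g hg h hh hgh f).1 hf.1, hf.2⟩
  · intro f _ f' _ hff
    rw [Prod.mk.injEq] at hff
    apply Prod.ext
    · funext s
      obtain ⟨s', rfl⟩ := hb.2 s
      exact congrFun hff.1 s'
    · exact hff.2
  · intro f hf
    rw [mem_filter] at hf
    have he : (fun s => (fun s' => f.1 (ψ s')) (g.1 s, h.1 s)) = f.1 := by
      funext s
      exact congrArg f.1 (hψ s)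
    refine ⟨(fun s' => f.1 (ψ s'), f.2), ?_, Prod.ext he rfl⟩
    rw [mem_filter]
    refine ⟨(hF.comp o g hg h hh hgh _).2 (by rw [he]; exact hf.1), ?_⟩
    refine Eq.trans ?_ hf.2
    exact Prod.ext (congrArg f.1 (hψ _)) rfl

lemma Coherent.N_le [Nontrivial A] {F : (A × C) × (A × C) → Finset (Op A C)} {q : ℕ}
    (hF : Coherent F q) (o o' : (A × C) × (A × C)) : N F o o' ≤ N F o' o := by
  unfold N
  apply card_le_card_of_injOn (fun gh => (((fun s => (Function.invFun (fun s : A × A =>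
    (gh.1.1 s, gh.2.1 s)) s).1, o.1.2) : Op A C),
    ((fun s => (Function.invFun (fun s : A × A => (gh.1.1 s, gh.2.1 s)) s).2, o.2.2) : Op A C)))
  · rintro ⟨g, h⟩ hgh
    rw [mem_coe, mem_filter, mem_product] at hgh ⊢
    obtain ⟨⟨hg, hh⟩, hne, he⟩ := hgh
    simp only at hg hh hne he ⊢
    have hb := hF.bij o g hg h hh hne
    have hl : ∀ s, Function.invFun (fun s : A × A => (g.1 s, h.1 s)) (g.1 s, h.1 s) = s :=
      Function.leftInverse_invFun hb.1
    have h1 : ∀ s, (Function.invFun (fun s : A × A => (g.1 s, h.1 s)) (g.1 s, h.1 s)).1 = s.1 := by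
      intro s; rw [hl]
    have h2 : ∀ s, (Function.invFun (fun s : A × A => (g.1 s, h.1 s)) (g.1 s, h.1 s)).2 = s.2 := by
      intro s; rw [hl]
    subst he
    refine ⟨⟨?_, ?_⟩, ?_, ?_⟩
    · apply (hF.comp o g hg h hh hne _).2
      simp only [h1]
      exact hF.fst o
    · apply (hF.comp o g hg h hh hne _).2
      simp only [h2]
      exact hF.snd o
    · intro he
      obtain ⟨a, b, hab⟩ := exists_pair_ne A
      rw [Prod.mk.injEq] at he
      have h3 := congrFun he.1 (g.1 (a, b), h.1 (a, b))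
      simp only [h1, h2] at h3
      exact hab h3
    · apply Prod.ext
      · exact Prod.ext (h1 _) rfl
      · exact Prod.ext (h2 _) rfl
  · rintro ⟨g, h⟩ hgh ⟨g', h'⟩ hgh' he
    rw [mem_coe, mem_filter, mem_product] at hgh hgh'
    obtain ⟨⟨hg, hh⟩, hne, hv⟩ := hgh
    obtain ⟨⟨hg', hh'⟩, hne', hv'⟩ := hgh'
    simp only at hg hh hne hv hg' hh' hne' hv' he
    have hb := hF.bij o g hg h hh hne
    have hb' := hF.bij o g' hg' h' hh' hne'
    simp only [Prod.mk.injEq, and_true] at he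
    have h1 : Function.invFun (fun s : A × A => (g.1 s, h.1 s)) =
        Function.invFun (fun s : A × A => (g'.1 s, h'.1 s)) := by
      funext s
      exact Prod.ext (congrFun he.1 s) (congrFun he.2 s)
    have h2 : (fun s : A × A => (g.1 s, h.1 s)) = (fun s : A × A => (g'.1 s, h'.1 s)) := by
      funext s
      have h3 : Function.invFun (fun s : A × A => (g.1 s, h.1 s)) (g.1 s, h.1 s) = s :=
        Function.leftInverse_invFun hb.1 s
      have h4 := Function.rightInverse_invFun hb'.2 (g.1 s, h.1 s)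
      rw [← h1, h3] at h4
      exact h4.symm
    have h5 : ∀ s, g.1 s = g'.1 s ∧ h.1 s = h'.1 s := fun s =>
      Prod.mk.injEq _ _ _ _ ▸ congrFun h2 s
    have h6 : val o g = val o g' := by
      rw [← hv'] at hv; exact (Prod.mk.injEq _ _ _ _ ▸ hv : _ ∧ _).1
    have h7 : val o h = val o h' := by
      rw [← hv'] at hv; exact (Prod.mk.injEq _ _ _ _ ▸ hv : _ ∧ _).2
    apply Prod.ext
    · exact Prod.ext (funext fun s => (h5 s).1) (show g.2 = g'.2 from
        congrArg (Prod.snd : A × C → C) h6)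
    · exact Prod.ext (funext fun s => (h5 s).2) (show h.2 = h'.2 from
        congrArg (Prod.snd : A × C → C) h7)

lemma Coherent.idem [Nontrivial A] {F : (A × C) × (A × C) → Finset (Op A C)} {q : ℕ}
    (hF : Coherent F q) (hq : 4 ≤ q) (a : A × C) : ∀ f ∈ F (a, a), val (a, a) f = a := by
  intro f hf
  by_contra hne
  set t : (A × C) × (A × C) := (a, a) with ht
  set c := val t f with hc
  have hfs : ((Prod.fst, a.2) : Op A C) ≠ (Prod.snd, a.2) := by
    obtain ⟨x, y, hxy⟩ := exists_pair_ne A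
    intro h
    rw [Prod.mk.injEq] at h
    exact hxy (congrFun h.1 (x, y))
  have h2 : 2 ≤ M F t a := by
    unfold M
    have h3 : ({(Prod.fst, a.2), (Prod.snd, a.2)} : Finset (Op A C))
        ⊆ (F t).filter (fun g => val t g = a) := by
      intro g hg
      rw [mem_insert, mem_singleton] at hg
      rw [mem_filter]
      rcases hg with rfl | rfl
      · exact ⟨hF.fst t, rfl⟩
      · exact ⟨hF.snd t, rfl⟩
    have h4 := card_le_card h3
    rwa [card_pair hfs] at h4
  have hreach : ∀ t', 0 < N F t t' → N F t t' = M F t a * M F t a - M F t a := by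
    intro t' hpos
    have h3 : N F t t' = N F t' t := le_antisymm (hF.N_le t t') (hF.N_le t' t)
    rw [h3, ht, N_diag, ← ht]
    obtain ⟨⟨g, h⟩, hgh⟩ := card_pos.1 hpos
    simp only [mem_filter, mem_product] at hgh
    obtain ⟨⟨hg, hh⟩, hne', rfl⟩ := hgh
    rw [hF.M_eq hg hh hne']
  have hc0 : 0 < M F t c := by
    apply card_pos.2
    exact ⟨f, by rw [mem_filter]; exact ⟨hf, rfl⟩⟩
  have hmul : M F t a * M F t a - M F t a = M F t a * (M F t a - 1) := by
    rw [Nat.mul_sub_one]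
  have hstep : ∀ c1, c1 ≠ a → 0 < M F t c1 → M F t c1 = M F t a - 1 := by
    intro c1 hc1 hpos
    have h3 := hreach (a, c1) (by rw [N_off F t hc1.symm]; positivity)
    rw [N_off F t hc1.symm, hmul] at h3
    exact Nat.eq_of_mul_eq_mul_left (by omega) h3
  have hmc := hstep c hne hc0
  have hother : ∀ c1, c1 ≠ a → c1 ≠ c → M F t c1 = 0 := by
    intro c1 h3 h4
    by_contra h5
    have h6 := hstep c1 h3 (Nat.pos_of_ne_zero h5)
    have h7 := hreach (c, c1) (by
      rw [N_off F t h4.symm]; exact Nat.mul_pos hc0 (Nat.pos_of_ne_zero h5))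
    rw [N_off F t h4.symm, hmul, hmc, h6] at h7
    have h8 := Nat.eq_of_mul_eq_mul_right (by omega) h7
    omega
  have hone : M F t c = 1 := by
    by_contra h3
    have h4 : 2 ≤ M F t c := by omega
    have h5 := hreach (c, c) (by
      rw [N_diag, ← Nat.mul_sub_one]
      exact Nat.mul_pos hc0 (by omega))
    rw [N_diag, hmul, ← Nat.mul_sub_one] at h5
    have h6 : M F t c * (M F t c - 1) < M F t a * (M F t a - 1) := by
      apply Nat.mul_lt_mul_of_lt_of_le (by omega) (by omega) (by omega)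
    omega
  have hsum : (F t).card = ∑ b ∈ (F t).image (val t), M F t b := by
    unfold M
    exact card_eq_sum_card_fiberwise (fun _ hf => mem_image_of_mem _ hf)
  have h9 : ∑ b ∈ (F t).image (val t), M F t b ≤ M F t a + M F t c := by
    rw [← sum_pair (f := fun b => M F t b) (Ne.symm hne)]
    apply sum_le_sum_of_ne_zero
    intro b _ hb
    rw [mem_insert, mem_singleton]
    by_contra h10
    rw [not_or] at h10
    exact hb (hother b h10.1 h10.2)
  rw [← hsum, hF.card t] at h9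
  omega

/-- the permutations of the pairs which preserve a set of binary operations -/
def stab (F : Finset (Op A C)) : Subgroup (Equiv.Perm (A × A)) where
  carrier := {φ | ∀ f : Op A C, f ∈ F ↔ (f.1 ∘ φ, f.2) ∈ F}
  mul_mem' := by
    intro φ ψ hφ hψ f
    rw [hφ f, hψ (f.1 ∘ φ, f.2)]
    rfl
  one_mem' := fun f => Iff.rfl
  inv_mem' := by
    intro φ hφ f
    rw [hφ (f.1 ∘ (φ⁻¹ : Equiv.Perm (A × A)), f.2)]
    have : (f.1 ∘ (φ⁻¹ : Equiv.Perm (A × A))) ∘ φ = f.1 := by
      funext s; simp [Function.comp]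
    simp only [this]

lemma mem_stab {F : Finset (Op A C)} {φ : Equiv.Perm (A × A)} :
    φ ∈ stab F ↔ ∀ f : Op A C, f ∈ F ↔ (f.1 ∘ φ, f.2) ∈ F := Iff.rfl

instance stabAction (F : Finset (Op A C)) : MulAction (stab F) {f // f ∈ F} where
  smul h f := ⟨(f.1.1 ∘ ((h⁻¹ : stab F) : Equiv.Perm (A × A)), f.1.2), ((h⁻¹).2 f.1).1 f.2⟩
  one_smul f := by
    apply Subtype.ext
    refine Prod.ext ?_ rfl
    funext s
    show f.1.1 ((((1 : stab F)⁻¹ : stab F) : Equiv.Perm (A × A)) s) = f.1.1 s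
    simp
  mul_smul h k f := by
    apply Subtype.ext
    refine Prod.ext ?_ rfl
    funext s
    show f.1.1 ((((h * k)⁻¹ : stab F) : Equiv.Perm (A × A)) s) = f.1.1 (((k⁻¹ : stab F) :
      Equiv.Perm (A × A)) (((h⁻¹ : stab F) : Equiv.Perm (A × A)) s))
    rw [mul_inv_rev]
    rfl

theorem Coherent.isPrimePow [Nontrivial A] [Nonempty C]
    {F : (A × C) × (A × C) → Finset (Op A C)} {q : ℕ}
    (hF : Coherent F q) (hq : 3 ≤ q) : IsPrimePow q := by
  rcases Nat.lt_or_ge 3 q with h4 | h4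
  swap
  · have : q = 3 := le_antisymm h4 hq
    rw [this]; exact Nat.prime_three.isPrimePow
  obtain ⟨a⟩ : Nonempty (A × C) := inferInstance
  have hid := hF.idem h4 a
  set t : (A × C) × (A × C) := (a, a) with ht
  have hper : ∀ g ∈ F t, ∀ h ∈ F t, g ≠ h → ∃ φ ∈ stab (F t), ∀ s, φ s = (g.1 s, h.1 s) := by
    intro g hg h hh hne
    refine ⟨Equiv.ofBijective _ (hF.bij t g hg h hh hne), ?_, fun s => rfl⟩
    intro f
    have h1 := hF.comp t g hg h hh hne f
    rw [hid g hg, hid h hh] at h1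
    exact h1
  have htag : ∀ g ∈ F t, g.2 = a.2 := fun g hg => congrArg Prod.snd (hid g hg)
  have hcard : Fintype.card {f // f ∈ F t} = q := by
    rw [Fintype.card_coe, hF.card t]
  rw [← hcard]
  apply primePow_of_sharp (G := stab (F t))
  · rw [hcard]; omega
  · rintro ⟨g, hg⟩ ⟨h, hh⟩ ⟨g', hg'⟩ ⟨h', hh'⟩ hne hne'
    obtain ⟨φ, hφ, hφs⟩ := hper g hg h hh (fun h => hne (Subtype.ext h))
    obtain ⟨φ', hφ', hφs'⟩ := hper g' hg' h' hh' (fun h => hne' (Subtype.ext h))
    refine ⟨⟨φ', hφ'⟩⁻¹ * ⟨φ, hφ⟩, ?_, ?_⟩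
    · apply Subtype.ext
      refine Prod.ext ?_ ((htag g hg).trans (htag g' hg').symm)
      funext s
      show g.1 ((((⟨φ', hφ'⟩⁻¹ * ⟨φ, hφ⟩ : stab (F t))⁻¹ : stab (F t)) : Equiv.Perm (A × A)) s)
        = g'.1 s
      have h1 : ((((⟨φ', hφ'⟩⁻¹ * ⟨φ, hφ⟩ : stab (F t))⁻¹ : stab (F t)) : Equiv.Perm (A × A)) s)
          = φ.symm (φ' s) := by
        rw [mul_inv_rev, inv_inv]; rfl
      rw [h1]
      have h2 := hφs (φ.symm (φ' s))
      rw [Equiv.apply_symm_apply] at h2
      exact (congrArg Prod.fst h2).symm.trans (congrArg Prod.fst (hφs' s))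
    · apply Subtype.ext
      refine Prod.ext ?_ ((htag h hh).trans (htag h' hh').symm)
      funext s
      show h.1 ((((⟨φ', hφ'⟩⁻¹ * ⟨φ, hφ⟩ : stab (F t))⁻¹ : stab (F t)) : Equiv.Perm (A × A)) s)
        = h'.1 s
      have h1 : ((((⟨φ', hφ'⟩⁻¹ * ⟨φ, hφ⟩ : stab (F t))⁻¹ : stab (F t)) : Equiv.Perm (A × A)) s)
          = φ.symm (φ' s) := by
        rw [mul_inv_rev, inv_inv]; rfl
      rw [h1]
      have h2 := hφs (φ.symm (φ' s))
      rw [Equiv.apply_symm_apply] at h2
      exact (congrArg Prod.snd h2).symm.trans (congrArg Prod.snd (hφs' s))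
  · rintro k ⟨g, hg⟩ ⟨h, hh⟩ hne h1 h2
    obtain ⟨φ, hφ, hφs⟩ := hper g hg h hh (fun h => hne (Subtype.ext h))
    have h3 : ∀ s, g.1 (((k⁻¹ : stab (F t)) : Equiv.Perm (A × A)) s) = g.1 s := fun s =>
      congrFun (congrArg Prod.fst (congrArg Subtype.val h1)) s
    have h4 : ∀ s, h.1 (((k⁻¹ : stab (F t)) : Equiv.Perm (A × A)) s) = h.1 s := fun s =>
      congrFun (congrArg Prod.fst (congrArg Subtype.val h2)) s
    have h5 : k⁻¹ = 1 := by
      apply Subtype.ext
      apply Equiv.ext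
      intro s
      apply φ.injective
      rw [hφs, hφs, h3, h4]
      rfl
    exact inv_eq_one.1 h5

end Pool.Agent.H782.Ste
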