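import Pool.Agent.H782.Ste.Two

set_option autoImplicit false
set_option linter.unusedSectionVars false

/-! Direct powers of Steiner systems of strength two with a prime power as block size, and of
Steiner quadruple systems. -/

namespace Pool.Agent.H782.Ste

open Finset

section two

/-- an affine structure over `K` on the lines of a linear space -/
structure LineOps (K A : Type) [Field K] (m : K → A → A → A) : Prop where
  zero : ∀ a b, m 0 a b = a
  one : ∀ a b, m 1 a b = b
  idem : ∀ t a, m t a a = a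
  inj : ∀ a b, a ≠ b → Function.Injective (fun t => m t a b)
  comp : ∀ s t u a b, m u (m s a b) (m t a b) = m ((1 - u) * s + u * t) a b

theorem exists_lineOps {A : Type} [DecidableEq A] [Nonempty A] {q : ℕ} {𝓒 : Set (Finset A)}
    (h : IsSteiner 𝓒 q 2) (K : Type) [Field K] [Fintype K] (hK : Fintype.card K = q) :
    ∃ m : K → A → A → A, LineOps K A m := by
  classical
  have hE : ∀ B : Finset A, ∃ E : K → A, B.card = q →
      (Function.Injective E ∧ ∀ a, a ∈ B ↔ ∃ x, E x = a) := by
    intro B
    by_cases hB : B.card = q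
    · have e : K ≃ B := Fintype.equivOfCardEq (by rw [hK, Fintype.card_coe, hB])
      refine ⟨fun x => (e x).1, fun _ => ⟨fun x y hxy => e.injective (Subtype.ext hxy), fun a => ?_⟩⟩
      constructor
      · intro ha; exact ⟨e.symm ⟨a, ha⟩, by simp⟩
      · rintro ⟨x, rfl⟩; exact (e x).2
    · exact ⟨fun _ => Classical.arbitrary A, fun h => absurd h hB⟩
  choose E hE using hE
  have hc : ∀ (B : Finset A) (a : A), ∃ x : K, B.card = q → a ∈ B → E B x = a := by
    intro B a
    by_cases h1 : B.card = q ∧ a ∈ B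
    · obtain ⟨x, hx⟩ := ((hE B h1.1).2 a).1 h1.2
      exact ⟨x, fun _ _ => hx⟩
    · exact ⟨0, fun h2 h3 => absurd ⟨h2, h3⟩ h1⟩
  choose c hc using hc
  have hcE : ∀ B : Finset A, B.card = q → ∀ x, c B (E B x) = x := by
    intro B hB x
    apply (hE B hB).1
    exact hc B _ hB (((hE B hB).2 _).2 ⟨x, rfl⟩)
  have hEm : ∀ B : Finset A, B.card = q → ∀ x, E B x ∈ B := fun B hB x =>
    ((hE B hB).2 _).2 ⟨x, rfl⟩
  let m : K → A → A → A := fun t a b =>
    if a = b then a else E (line 𝓒 a b) ((1 - t) * c (line 𝓒 a b) a + t * c (line 𝓒 a b) b)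
  have m1 : ∀ t a, m t a a = a := fun t a => if_pos rfl
  have m2 : ∀ t a b, a ≠ b →
      m t a b = E (line 𝓒 a b) ((1 - t) * c (line 𝓒 a b) a + t * c (line 𝓒 a b) b) :=
    fun t a b hab => if_neg hab
  have hl : ∀ a b, a ≠ b → (line 𝓒 a b).card = q := fun a b hab =>
    h.card_block _ (line_mem h hab).1
  have hne : ∀ a b, a ≠ b → c (line 𝓒 a b) a ≠ c (line 𝓒 a b) b := by
    intro a b hab he
    obtain ⟨h1, h2, h3⟩ := line_mem h hab
    have h4 := hc _ a (hl a b hab) h2
    have h5 := hc _ b (hl a b hab) h3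
    rw [he, h5] at h4
    exact hab h4.symm
  have minj : ∀ a b, a ≠ b → Function.Injective (fun t => m t a b) := by
    intro a b hab s t hst
    simp only [m2 _ a b hab] at hst
    have h1 := (hE _ (hl a b hab)).1 hst
    have h2 := sub_ne_zero.2 (hne a b hab)
    have h3 : (s - t) * (c (line 𝓒 a b) a - c (line 𝓒 a b) b) = 0 := by
      linear_combination -h1
    rcases mul_eq_zero.1 h3 with h4 | h4
    · exact sub_eq_zero.1 h4
    · exact absurd h4 h2
  refine ⟨m, ?_, ?_, m1, minj, ?_⟩
  · intro a b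
    by_cases hab : a = b
    · rw [hab, m1]
    · rw [m2 _ _ _ hab]
      simp only [sub_zero, one_mul, zero_mul, add_zero]
      exact hc _ _ (hl a b hab) (line_mem h hab).2.1
  · intro a b
    by_cases hab : a = b
    · rw [hab, m1]
    · rw [m2 _ _ _ hab]
      simp only [sub_self, one_mul, zero_mul, zero_add]
      exact hc _ _ (hl a b hab) (line_mem h hab).2.2
  · intro s t u a b
    by_cases hab : a = b
    · subst hab; simp only [m1]
    · by_cases hst : s = t
      · subst hst
        rw [m1]
        congr 1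
        ring
      · have hp : m s a b ≠ m t a b := fun he => hst (minj a b hab he)
        have hB := hl a b hab
        have hs' : m s a b ∈ line 𝓒 a b := by rw [m2 _ _ _ hab]; exact hEm _ hB _
        have ht' : m t a b ∈ line 𝓒 a b := by rw [m2 _ _ _ hab]; exact hEm _ hB _
        have hline := line_unique h hp (line_mem h hab).1 hs' ht'
        have e1 : c (line 𝓒 a b) (m s a b) = (1 - s) * c (line 𝓒 a b) a + s * c (line 𝓒 a b) b := by
          rw [m2 _ _ _ hab, hcE _ hB]
        have e2 : c (line 𝓒 a b) (m t a b) = (1 - t) * c (line 𝓒 a b) a + t * c (line 𝓒 a b) b := by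
          rw [m2 _ _ _ hab, hcE _ hB]
        rw [m2 u _ _ hp, ← hline, e1, e2, m2 _ a b hab]
        congr 1
        ring

variable {P A : Type} [Fintype P] [DecidableEq P] [DecidableEq A]

theorem power_two_aux [Nonempty A] {q : ℕ} {𝓒 : Set (Finset A)}
    (h : IsSteiner 𝓒 q 2) (K : Type) [Field K] [Fintype K] (hK : Fintype.card K = q) :
    ∃ 𝓑 : Set (Finset (P → A)), IsSteiner 𝓑 q 2 ∧ PositionSymmetric 𝓑 := by
  classical
  obtain ⟨m, hm⟩ := exists_lineOps h K hK
  let L : (P → A) → (P → A) → Finset (P → A) := fun x y =>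
    (univ : Finset K).image (fun t i => m t (x i) (y i))
  have hLinj : ∀ x y : P → A, x ≠ y → Function.Injective (fun (t : K) (i : P) => m t (x i) (y i)) := by
    intro x y hxy s t hst
    obtain ⟨i, hi⟩ := Function.ne_iff.1 hxy
    exact hm.inj _ _ hi (congrFun hst i)
  have hLx : ∀ x y, x ∈ L x y := fun x y => mem_image.2 ⟨0, mem_univ _, by
    funext i; exact hm.zero _ _⟩
  have hLy : ∀ x y, y ∈ L x y := fun x y => mem_image.2 ⟨1, mem_univ _, by
    funext i; exact hm.one _ _⟩
  have hLeq : ∀ x y x' y' : P → A, x ≠ y → x ∈ L x' y' → y ∈ L x' y' → L x' y' = L x y := by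
    intro x y x' y' hxy hx hy
    obtain ⟨s, -, rfl⟩ := mem_image.1 hx
    obtain ⟨t, -, rfl⟩ := mem_image.1 hy
    have hst : s ≠ t := fun he => hxy (by rw [he])
    ext z
    simp only [L, mem_image, mem_univ, true_and]
    constructor
    · rintro ⟨w, rfl⟩
      refine ⟨(w - s) / (t - s), ?_⟩
      funext i
      rw [hm.comp]
      congr 1
      have : t - s ≠ 0 := sub_ne_zero.2 hst.symm
      field_simp
      ring
    · rintro ⟨u, rfl⟩
      refine ⟨(1 - u) * s + u * t, ?_⟩
      funext i
      exact (hm.comp s t u _ _).symm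
  refine ⟨{B | ∃ x y, x ≠ y ∧ B = L x y}, ⟨?_, ?_⟩, ?_⟩
  · rintro B ⟨x, y, hxy, rfl⟩
    show (image _ _).card = q
    rw [card_image_of_injective _ (hLinj x y hxy), card_univ, hK]
  · intro R hR
    obtain ⟨x, y, hxy, rfl⟩ := card_eq_two.1 hR
    refine ⟨L x y, ⟨⟨x, y, hxy, rfl⟩, ?_⟩, ?_⟩
    · intro z hz
      rw [mem_insert, mem_singleton] at hz
      rcases hz with rfl | rfl
      · exact hLx _ _
      · exact hLy _ _
    · rintro B ⟨⟨x', y', -, rfl⟩, hB⟩
      exact hLeq x y x' y' hxy (hB (by simp)) (hB (by simp))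
  · rintro σ B ⟨x, y, hxy, rfl⟩
    refine ⟨x ∘ σ, y ∘ σ, fun he => hxy (σ.surjective.injective_comp_right he), ?_⟩
    show (image _ _).image _ = image _ _
    rw [image_image]
    rfl

theorem power_two [Nonempty A] {q : ℕ} (hq : IsPrimePow q) {𝓒 : Set (Finset A)}
    (h : IsSteiner 𝓒 q 2) :
    ∃ 𝓑 : Set (Finset (P → A)), IsSteiner 𝓑 q 2 ∧ PositionSymmetric 𝓑 := by
  obtain ⟨K⟩ : Nonempty (Field (Fin q)) := by
    rw [Fintype.nonempty_field_iff, Fintype.card_fin]; exact hq
  exact power_two_aux h (Fin q) (Fintype.card_fin q)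

end two

section three

variable {P A : Type} [Fintype P] [DecidableEq P] [DecidableEq A]

/-- the algebras of Steiner quadruple systems -/
structure QuadOp {X : Type} (f : X → X → X → X) : Prop where
  comm1 : ∀ a b c, f a b c = f b a c
  comm2 : ∀ a b c, f a b c = f a c b
  deg : ∀ a b, f a a b = b
  inv : ∀ a b c, f a b (f a b c) = c

theorem exists_quadOp [Nonempty A] {𝓒 : Set (Finset A)} (h : IsSteiner 𝓒 4 3) :
    ∃ f : A → A → A → A, QuadOp f := by
  classical
  have hg : ∀ R : Finset A, ∃ d : A, R.card = 3 → (d ∉ R ∧ insert d R ∈ 𝓒) := by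
    intro R
    by_cases hR : R.card = 3
    · obtain ⟨B, ⟨hB1, hB2⟩, -⟩ := h.exists_unique R hR
      have h1 : (B \ R).card = 1 := by
        rw [card_sdiff_of_subset hB2, h.card_block B hB1, hR]
      obtain ⟨d, hd⟩ := card_eq_one.1 h1
      have hd' : d ∈ B \ R := by rw [hd]; exact mem_singleton_self d
      refine ⟨d, fun _ => ⟨(mem_sdiff.1 hd').2, ?_⟩⟩
      rw [insert_eq, ← hd, sdiff_union_of_subset hB2]
      exact hB1
    · exact ⟨Classical.arbitrary A, fun h => absurd h hR⟩
  choose g hg using hg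
  have hgu : ∀ (R : Finset A) (d : A), R.card = 3 → d ∉ R → insert d R ∈ 𝓒 → g R = d := by
    intro R d hR hd hdR
    obtain ⟨h1, h2⟩ := hg R hR
    have h3 := (h.exists_unique R hR).unique ⟨h2, subset_insert _ _⟩ ⟨hdR, subset_insert _ _⟩
    have h4 : g R ∈ insert d R := by rw [← h3]; exact mem_insert_self _ _
    rw [mem_insert] at h4
    exact h4.resolve_right h1
  have h3 : ∀ a b c : A, a ≠ b → b ≠ c → a ≠ c → ({a, b, c} : Finset A).card = 3 := by
    intro a b c hab hbc hac
    exact card_eq_three.2 ⟨a, b, c, hab, hac, hbc, rfl⟩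
  let f : A → A → A → A := fun a b c =>
    if a = b then c else if b = c then a else if a = c then b else g {a, b, c}
  refine ⟨f, ?_, ?_, ?_, ?_⟩
  · intro a b c
    simp only [f]
    rw [insert_comm a b {c}]
    split_ifs <;> first | rfl | (subst_vars; first | rfl | (exfalso; tauto))
  · intro a b c
    simp only [f]
    rw [pair_comm b c]
    split_ifs <;> first | rfl | (subst_vars; first | rfl | (exfalso; tauto))
  · intro a b
    simp only [f, if_true]
  · intro a b c
    by_cases hab : a = b
    · subst hab; simp only [f, if_true]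
    by_cases hbc : b = c
    · subst hbc
      simp only [f, if_neg hab, if_true]
      rw [if_neg (Ne.symm hab)]
    by_cases hac : a = c
    · subst hac
      simp only [f, if_neg hab, if_true]
      rw [if_neg (Ne.symm hab)]
      simp
    have e1 : f a b c = g {a, b, c} := by
      simp only [f]
      rw [if_neg hab, if_neg hbc, if_neg hac]
    obtain ⟨h1, h2⟩ := hg {a, b, c} (h3 a b c hab hbc hac)
    rw [e1]
    set d := g {a, b, c} with hd
    rw [mem_insert, mem_insert, mem_singleton, not_or, not_or] at h1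
    simp only [f]
    rw [if_neg hab, if_neg (Ne.symm h1.2.1), if_neg (Ne.symm h1.1)]
    apply hgu
    · exact h3 a b d hab (Ne.symm h1.2.1) (Ne.symm h1.1)
    · rw [mem_insert, mem_insert, mem_singleton, not_or, not_or]
      exact ⟨Ne.symm hac, Ne.symm hbc, Ne.symm h1.2.2⟩
    · have : (insert c {a, b, d} : Finset A) = insert d {a, b, c} := by
        ext x; simp only [mem_insert, mem_singleton]; tauto
      rw [this]; exact h2

lemma QuadOp.pi {f : A → A → A → A} (hf : QuadOp f) :
    QuadOp (fun (x y z : P → A) (i : P) => f (x i) (y i) (z i)) where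
  comm1 a b c := by funext i; exact hf.comm1 _ _ _
  comm2 a b c := by funext i; exact hf.comm2 _ _ _
  deg a b := by funext i; exact hf.deg _ _
  inv a b c := by funext i; exact hf.inv _ _ _

lemma QuadOp.ne {X : Type} {f : X → X → X → X} (hf : QuadOp f) {a b c : X} (hbc : b ≠ c) :
    f a b c ≠ a := by
  intro h
  have h1 := hf.inv a b c
  rw [h, hf.comm2, hf.deg] at h1
  exact hbc h1

lemma QuadOp.steiner {X : Type} [DecidableEq X] {f : X → X → X → X} (hf : QuadOp f) :
    IsSteiner {B : Finset X | ∃ x y z, x ≠ y ∧ y ≠ z ∧ x ≠ z ∧ B = {x, y, z, f x y z}} 4 3 := by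
  have hd : ∀ x y z, x ≠ y → y ≠ z → x ≠ z → f x y z ≠ x ∧ f x y z ≠ y ∧ f x y z ≠ z := by
    intro x y z hxy hyz hxz
    refine ⟨hf.ne hyz, ?_, ?_⟩
    · rw [hf.comm1]; exact hf.ne hxz
    · rw [hf.comm2, hf.comm1]; exact hf.ne hxy
  have hcard : ∀ x y z, x ≠ y → y ≠ z → x ≠ z → ({x, y, z, f x y z} : Finset X).card = 4 := by
    intro x y z hxy hyz hxz
    obtain ⟨h1, h2, h3⟩ := hd x y z hxy hyz hxz
    rw [card_insert_of_notMem, card_insert_of_notMem, card_insert_of_notMem, card_singleton]
    · rw [mem_singleton]; exact Ne.symm h3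
    · simp only [mem_insert, mem_singleton, not_or]; exact ⟨hyz, Ne.symm h2⟩
    · simp only [mem_insert, mem_singleton, not_or]; exact ⟨hxy, hxz, Ne.symm h1⟩
  constructor
  · rintro B ⟨x, y, z, hxy, hyz, hxz, rfl⟩
    exact hcard x y z hxy hyz hxz
  · intro R hR
    obtain ⟨x, y, z, hxy, hxz, hyz, rfl⟩ := card_eq_three.1 hR
    refine ⟨{x, y, z, f x y z}, ⟨⟨x, y, z, hxy, hyz, hxz, rfl⟩, ?_⟩, ?_⟩
    · intro w hw
      simp only [mem_insert, mem_singleton] at hw ⊢
      tauto
    · rintro B ⟨⟨x', y', z', hxy', hyz', hxz', rfl⟩, hB⟩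
      have hx : x ∈ ({x', y', z', f x' y' z'} : Finset X) := hB (by simp)
      have hy : y ∈ ({x', y', z', f x' y' z'} : Finset X) := hB (by simp)
      have hz : z ∈ ({x', y', z', f x' y' z'} : Finset X) := hB (by simp)
      -- all values of the operation
      have sym : ∀ a b c d, f a b c = d → f b a c = d ∧ f a c b = d ∧ f c b a = d ∧ f b c a = d ∧
          f c a b = d := by
        intro a b c d h
        refine ⟨by rw [← hf.comm1]; exact h, by rw [← hf.comm2]; exact h, ?_, ?_, ?_⟩
        · rw [hf.comm1 c b a, hf.comm2 b c a, hf.comm1 b a c]; exact h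
        · rw [hf.comm2 b c a, hf.comm1 b a c]; exact h
        · rw [hf.comm1 c a b, hf.comm2 a c b]; exact h
      obtain ⟨w, hw⟩ : ∃ w, f x' y' z' = w := ⟨_, rfl⟩
      rw [hw] at hx hy hz ⊢
      have f1 := sym _ _ _ _ hw
      have g2 : f x' y' w = z' := by rw [← hw]; exact hf.inv _ _ _
      have g3 : f x' z' w = y' := by rw [← f1.2.1]; exact hf.inv _ _ _
      have g4 : f y' z' w = x' := by rw [← f1.2.2.2.1]; exact hf.inv _ _ _
      have f2 := sym _ _ _ _ g2
      have f3 := sym _ _ _ _ g3
      have f4 := sym _ _ _ _ g4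
      have hmem : f x y z ∈ ({x', y', z', w} : Finset X) := by
        simp only [mem_insert, mem_singleton] at hx hy hz ⊢
        rcases hx with rfl | rfl | rfl | rfl <;> rcases hy with rfl | rfl | rfl | rfl <;>
          rcases hz with rfl | rfl | rfl | rfl <;>
          first
            | exact absurd rfl hxy
            | exact absurd rfl hxz
            | exact absurd rfl hyz
            | (simp [hw, f1, g2, f2, g3, f3, g4, f4])
      symm
      apply eq_of_subset_of_card_le
      · intro v hv
        simp only [mem_insert, mem_singleton] at hv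
        rcases hv with rfl | rfl | rfl | rfl
        · exact hx
        · exact hy
        · exact hz
        · exact hmem
      · rw [hcard x y z hxy hyz hxz, ← hw, hcard x' y' z' hxy' hyz' hxz']

theorem power_three [Nonempty A] {𝓒 : Set (Finset A)} (h : IsSteiner 𝓒 4 3) :
    ∃ 𝓑 : Set (Finset (P → A)), IsSteiner 𝓑 4 3 ∧ PositionSymmetric 𝓑 := by
  obtain ⟨f, hf⟩ := exists_quadOp h
  refine ⟨_, (hf.pi (P := P)).steiner, ?_⟩
  rintro σ B ⟨x, y, z, hxy, hyz, hxz, rfl⟩
  refine ⟨x ∘ σ, y ∘ σ, z ∘ σ, fun he => hxy (σ.surjective.injective_comp_right he),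
    fun he => hyz (σ.surjective.injective_comp_right he),
    fun he => hxz (σ.surjective.injective_comp_right he), ?_⟩
  simp only [image_insert, image_singleton]
  rfl

end three

end Pool.Agent.H782.Ste
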