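import Pool.Agent.H782.Ste.Two

set_option autoImplicit false
set_option linter.unusedSectionVars false

/-! The divisibility conditions, and symmetric Steiner systems of strength at least three. -/

namespace Pool.Agent.H782.Ste

open Finset

section count
variable {V : Type} [DecidableEq V]

lemma card_between (U I : Finset V) (hI : I ⊆ U) {r : ℕ} (hr : I.card ≤ r) :
    ((U.powersetCard r).filter (fun R => I ⊆ R)).card = (U.card - I.card).choose (r - I.card) := by
  rw [← card_sdiff_of_subset hI, ← card_powersetCard]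
  symm
  apply card_bij (fun S _ => S ∪ I)
  · intro S hS
    rw [mem_powersetCard] at hS
    rw [mem_filter, mem_powersetCard]
    have hd : Disjoint S I := by
      rw [disjoint_left]
      intro x hx hxI
      exact (mem_sdiff.1 (hS.1 hx)).2 hxI
    refine ⟨⟨union_subset (hS.1.trans sdiff_subset) hI, ?_⟩, subset_union_right⟩
    rw [card_union_of_disjoint hd, hS.2]; omega
  · intro S hS S' hS' he
    rw [mem_powersetCard] at hS hS'
    have key : ∀ S : Finset V, S ⊆ U \ I → (S ∪ I) \ I = S := by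
      intro S hS
      ext x
      rw [mem_sdiff, mem_union]
      constructor
      · rintro ⟨h1 | h1, h2⟩
        · exact h1
        · exact absurd h1 h2
      · intro h1; exact ⟨Or.inl h1, (mem_sdiff.1 (hS h1)).2⟩
    rw [← key S hS.1, ← key S' hS'.1]
    exact congrArg (· \ I) he
  · intro R hR
    rw [mem_filter, mem_powersetCard] at hR
    refine ⟨R \ I, ?_, sdiff_union_of_subset hR.2⟩
    rw [mem_powersetCard]
    refine ⟨sdiff_subset_sdiff hR.1.1 (le_refl _), ?_⟩
    rw [card_sdiff_of_subset hR.2, hR.1.2]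

/-- the divisibility conditions -/
theorem IsSteiner.dvd [Fintype V] {𝓑 : Set (Finset V)} {q r : ℕ} (h : IsSteiner 𝓑 q r)
    (I : Finset V) (hI : I.card ≤ r) :
    (q - I.card).choose (r - I.card) ∣ (Fintype.card V - I.card).choose (r - I.card) := by
  classical
  have hb : ∀ R : Finset V, ∃ B : Finset V, R.card = r → (B ∈ 𝓑 ∧ R ⊆ B) := by
    intro R
    by_cases hR : R.card = r
    · obtain ⟨B, hB, -⟩ := h.exists_unique R hR
      exact ⟨B, fun _ => hB⟩
    · exact ⟨∅, fun h => absurd h hR⟩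
  choose blk hblk using hb
  set S := ((univ : Finset V).powersetCard r).filter (fun R => I ⊆ R) with hS
  have h1 : S.card = (Fintype.card V - I.card).choose (r - I.card) := by
    rw [hS, card_between _ _ (subset_univ I) hI, card_univ]
  rw [← h1]
  rw [card_eq_sum_card_fiberwise (f := blk) (t := S.image blk) (fun R hR => mem_image_of_mem _ hR)]
  have h2 : ∀ B ∈ S.image blk, (S.filter (fun R => blk R = B)).card
      = (q - I.card).choose (r - I.card) := by
    intro B hB
    obtain ⟨R₀, hR₀, rfl⟩ := mem_image.1 hB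
    rw [hS, mem_filter, mem_powersetCard] at hR₀
    obtain ⟨hb1, hb2⟩ := hblk R₀ hR₀.1.2
    have h3 : S.filter (fun R => blk R = blk R₀)
        = ((blk R₀).powersetCard r).filter (fun R => I ⊆ R) := by
      ext R
      simp only [hS, mem_filter, mem_powersetCard]
      constructor
      · rintro ⟨⟨⟨-, h4⟩, h5⟩, h6⟩
        refine ⟨⟨?_, h4⟩, h5⟩
        rw [← h6]; exact (hblk R h4).2
      · rintro ⟨⟨h4, h5⟩, h6⟩
        exact ⟨⟨⟨subset_univ _, h5⟩, h6⟩, (h.exists_unique R h5).unique (hblk R h5) ⟨hb1, h4⟩⟩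
    rw [h3, card_between _ _ (hR₀.2.trans hb2) hI, h.card_block _ hb1]
  rw [sum_congr rfl h2, sum_const, smul_eq_mul]
  exact Dvd.intro_left _ rfl

end count

section arith

lemma desc_eq (n : ℕ) (hn : 2 ≤ n) (u : ℕ) :
    ∃ c : ℤ, ((n - 2).descFactorial u : ℤ)
      = (-1) ^ u * (u.factorial : ℤ) * ((u + 1) - u * n) + ((n : ℤ) * n - n) * c := by
  induction u with
  | zero => exact ⟨0, by simp⟩
  | succ u ih =>
    obtain ⟨c, hc⟩ := ih
    have h1 : ((n - 2).descFactorial (u + 1) : ℤ)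
        = ((n : ℤ) - 2 - u) * ((n - 2).descFactorial u : ℤ) := by
      rw [Nat.descFactorial_succ]
      rcases le_or_gt u (n - 2) with h | h
      · have : ((n - 2 - u : ℕ) : ℤ) = (n : ℤ) - 2 - u := by
          rw [Nat.cast_sub h, Nat.cast_sub hn]; rfl
        rw [Nat.cast_mul, this]
      · rw [Nat.descFactorial_eq_zero_iff_lt.2 h]; simp
    rw [h1, hc]
    refine ⟨((n : ℤ) - 2 - u) * c - (-1) ^ u * (u.factorial : ℤ) * u, ?_⟩
    rw [Nat.factorial_succ, pow_succ]
    push_cast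
    ring

lemma arith (u D n : ℕ) (hn : 2 ≤ n) (hD : D ∣ (n - 2).choose u)
    (hidem : ((D * u.factorial : ℕ) : ℤ) ∣ (n : ℤ) * n - n) : D ∣ u + 1 := by
  obtain ⟨c, hc⟩ := desc_eq n hn u
  have h1 : ((D * u.factorial : ℕ) : ℤ) ∣ ((n - 2).descFactorial u : ℤ) := by
    rw [Int.natCast_dvd_natCast, Nat.descFactorial_eq_factorial_mul_choose, mul_comm D]
    exact Nat.mul_dvd_mul_left _ hD
  have h2 : ((D * u.factorial : ℕ) : ℤ) ∣ (-1) ^ u * (u.factorial : ℤ) * ((u + 1) - u * n) := by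
    rw [hc] at h1
    exact (dvd_add_left (hidem.mul_right c)).1 h1
  have h3 : (D : ℤ) ∣ (-1) ^ u * ((u + 1) - u * n) := by
    have hf : (u.factorial : ℤ) ≠ 0 := by exact_mod_cast u.factorial_ne_zero
    rw [← mul_dvd_mul_iff_left hf]
    rw [Nat.cast_mul] at h2
    have e1 : (u.factorial : ℤ) * (D : ℤ) = (D : ℤ) * (u.factorial : ℤ) := mul_comm _ _
    have e2 : (u.factorial : ℤ) * ((-1) ^ u * ((u + 1) - u * n))
        = (-1) ^ u * (u.factorial : ℤ) * ((u + 1) - u * n) := by ring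
    rw [e1, e2]
    exact h2
  have h4 : (D : ℤ) ∣ ((u + 1) - u * n) := by
    have h5 := h3.mul_left ((-1) ^ u)
    rwa [← mul_assoc, ← mul_pow, neg_one_mul, neg_neg, one_pow, one_mul] at h5
  have h6 : (D : ℤ) ∣ (n : ℤ) * n - n := by
    refine Dvd.dvd.trans ?_ hidem
    rw [Nat.cast_mul]; exact Dvd.intro _ rfl
  have h7 : (D : ℤ) ∣ ((u + 1 : ℕ) : ℤ) := by
    have h8 := dvd_add (h4.mul_right (1 + (u : ℤ) * n)) (h6.mul_right ((u : ℤ) * u))
    have e3 : ((u : ℤ) + 1 - u * n) * (1 + (u : ℤ) * n) + ((n : ℤ) * n - n) * ((u : ℤ) * u)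
        = ((u + 1 : ℕ) : ℤ) := by
      push_cast
      ring
    rw [← e3]
    exact h8
  exact_mod_cast h7

lemma exists_idem (k M : ℕ) (hM : 0 < M) : ∃ t₀ : ℕ, ∀ m : ℕ, ∃ t : ℕ, 1 ≤ t ∧ t ≤ t₀ ∧
    ((M : ℕ) : ℤ) ∣ ((k ^ (t + m) : ℕ) : ℤ) * ((k ^ (t + m) : ℕ) : ℤ) - ((k ^ (t + m) : ℕ) : ℤ) := by
  have : NeZero M := ⟨hM.ne'⟩
  obtain ⟨i, j, hij, he⟩ := Finite.exists_ne_map_eq_of_infinite (fun i : ℕ => (k : ZMod M) ^ i)
  wlog hlt : i < j generalizing i j
  · exact this j i hij.symm he.symm (by omega)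
  obtain ⟨c, rfl⟩ := Nat.exists_eq_add_of_lt hlt
  have h1 : ∀ s, i ≤ s → (k : ZMod M) ^ (s + (c + 1)) = (k : ZMod M) ^ s := by
    intro s hs
    obtain ⟨d, rfl⟩ := Nat.exists_eq_add_of_le hs
    rw [show i + d + (c + 1) = (i + c + 1) + d by ring, pow_add, ← he, ← pow_add]
  have h2 : ∀ m s, i ≤ s → (k : ZMod M) ^ (s + m * (c + 1)) = (k : ZMod M) ^ s := by
    intro m
    induction m with
    | zero => intro s _; simp
    | succ m ih =>
      intro s hs
      rw [show s + (m + 1) * (c + 1) = (s + m * (c + 1)) + (c + 1) by ring, h1 _ (by omega), ih s hs]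
  refine ⟨i + c + 2, fun m => ?_⟩
  set b := max i (m + 1) with hb
  have hmod : b % (c + 1) < c + 1 := Nat.mod_lt _ (by omega)
  have hdiv := Nat.div_add_mod b (c + 1)
  have hbi : i ≤ b := le_max_left _ _
  have hbm : m + 1 ≤ b := le_max_right _ _
  have hbu : b ≤ i + m + 1 := max_le (by omega) (by omega)
  set T := b + (c + 1 - b % (c + 1)) with hT
  have hTd : T = (b / (c + 1) + 1) * (c + 1) := by
    have : (b / (c + 1) + 1) * (c + 1) = (c + 1) * (b / (c + 1)) + (c + 1) := by ring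
    omega
  refine ⟨T - m, by omega, by omega, ?_⟩
  rw [Nat.sub_add_cancel (by omega), ← ZMod.intCast_zmod_eq_zero_iff_dvd]
  push_cast
  rw [← pow_add]
  have h3 := h2 (b / (c + 1) + 1) T (by omega)
  rw [← hTd] at h3
  rw [h3, sub_self]

lemma choose_gt (u a : ℕ) (hu : 1 ≤ u) (ha : u + 2 ≤ a) : u + 1 < a.choose u := by
  refine lt_of_lt_of_le ?_ (Nat.choose_le_choose u ha)
  obtain ⟨v, rfl⟩ := Nat.exists_eq_add_of_le' hu
  rw [show v + 1 + 2 = (v + 2) + 1 by ring, Nat.choose_succ_succ']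
  have h1 : 0 < (v + 2).choose v := Nat.choose_pos (by omega)
  have h2 : (v + 2).choose (v + 1) = v + 2 := by
    rw [show v + 2 = (v + 1) + 1 by ring, Nat.choose_succ_self_right]
  omega

end arith

section
variable {P A : Type} [Fintype P] [DecidableEq P] [DecidableEq A] [Fintype A]

lemma exists_large {T : Type} [Fintype T] [DecidableEq T] [Nonempty T] (q : ℕ)
    (hP : Fintype.card T * (2 * q + 3) ≤ Fintype.card P) :
    ∃ p : P → T, Function.Surjective p ∧
      ∀ i, 2 * q + 2 < (univ.filter (fun j => p j = p i)).card := by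
  classical
  obtain ⟨t⟩ : Nonempty T := inferInstance
  obtain ⟨p, hp⟩ := exists_map (P := P) (sizes P (2 * q + 3) t) (sum_sizes _ t hP)
  refine ⟨p, ?_, ?_⟩
  · intro s
    have h1 : 0 < (univ.filter (fun j => p j = s)).card := by
      rw [hp]; have := le_sizes (P := P) _ t s hP; omega
    obtain ⟨i, hi⟩ := card_pos.1 h1
    exact ⟨i, (mem_filter.1 hi).2⟩
  · intro i; rw [hp]; exact le_sizes _ t _ hP

/-- A Steiner system of strength at least 3 on words which is symmetric in many positions has block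
size `r + 1`. -/
theorem eq_succ_of_symmetric [Nontrivial A] (q r : ℕ) (hr : 3 ≤ r) (hq : r < q) :
    ∃ N₀ : ℕ, ∀ (P : Type) [Fintype P] [DecidableEq P] (I : Finset P), N₀ ≤ I.card →
      ∀ 𝓑 : Set (Finset (P → A)), IsSteiner 𝓑 q r → EvenSymmetricOn I 𝓑 → q = r + 1 := by
  obtain ⟨t₀, ht₀⟩ := exists_idem (Fintype.card A)
    ((q - 2).choose (r - 2) * (r - 2).factorial)
    (Nat.mul_pos (Nat.choose_pos (by omega)) (Nat.factorial_pos _))
  refine ⟨t₀ * (2 * q + 3), fun P _ _ I hP 𝓑 h hs => ?_⟩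
  obtain ⟨t, ht1, ht2, ht⟩ := ht₀ (Fintype.card {i // i ∉ I})
  have : Nonempty (Fin t) := ⟨⟨0, ht1⟩⟩
  obtain ⟨p, hp1, hp2⟩ := exists_large (P := {i // i ∈ I}) (T := Fin t) q (by
    rw [Fintype.card_fin, Fintype.card_coe]
    exact (Nat.mul_le_mul_right _ ht2).trans hP)
  have hst := restrict_steiner h hs (part_surj hp1) (part_adm hp2)
  have hcard : Fintype.card (Fin t ⊕ {i // i ∉ I} → A)
      = Fintype.card A ^ (t + Fintype.card {i // i ∉ I}) := by
    rw [Fintype.card_fun, Fintype.card_sum, Fintype.card_fin]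
  have hA : 2 ≤ Fintype.card A := Fintype.one_lt_card
  have hn : 2 ≤ Fintype.card A ^ (t + Fintype.card {i // i ∉ I}) :=
    hA.trans (Nat.le_self_pow (by omega) _)
  obtain ⟨J, -, hJ⟩ := exists_subset_card_eq (s := (univ : Finset (Fin t ⊕ {i // i ∉ I} → A)))
    (n := 2) (by rw [card_univ, hcard]; exact hn)
  have hd := hst.dvd J (by omega)
  rw [hJ, hcard] at hd
  have h1 := arith (r - 2) _ _ hn hd ht
  by_contra hne
  have h2 := choose_gt (r - 2) (q - 2) (by omega) (by omega)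
  have h3 := Nat.le_of_dvd (by omega) h1
  omega

end

end Pool.Agent.H782.Ste
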