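import Pool.Agent.H782.Ste.Four
import Pool.Agent.H782.Ste.Constr

set_option autoImplicit false
set_option linter.unusedSectionVars false

/-! The classification. -/

namespace Pool.Agent.H782.Ste

open Finset

/-- There is a Steiner system with `n` points, block size `q` and strength `r`
(`r ≤ q ≤ n`). -/
def SteinerExists (n q r : ℕ) : Prop :=
  r ≤ q ∧ q ≤ n ∧ ∃ 𝓑 : Set (Finset (Fin n)), IsSteiner 𝓑 q r

/-- the condition of the classification -/
def Cond (k q r : ℕ) : Prop :=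
  (r = 2 ∧ IsPrimePow q ∧ SteinerExists k q 2) ∨ (r = 3 ∧ q = 4 ∧ (k = 2 ∨ SteinerExists k 4 3))

lemma transfer {V W : Type} (e : V ≃ W) {𝓑 : Set (Finset V)} {q r : ℕ} (h : IsSteiner 𝓑 q r) :
    IsSteiner {B : Finset W | B.map e.symm.toEmbedding ∈ 𝓑} q r := by
  constructor
  · intro B hB
    rw [← h.card_block _ hB, card_map]
  · intro R hR
    obtain ⟨B, ⟨hB1, hB2⟩, hB3⟩ := h.exists_unique (R.map e.symm.toEmbedding) (by rw [card_map, hR])
    have hmm : (B.map e.toEmbedding).map e.symm.toEmbedding = B := by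
      rw [map_map]; ext x; simp
    refine ⟨B.map e.toEmbedding, ⟨?_, ?_⟩, ?_⟩
    · show (B.map e.toEmbedding).map e.symm.toEmbedding ∈ 𝓑
      rw [hmm]; exact hB1
    · rw [← map_subset_map (f := e.symm.toEmbedding), hmm]; exact hB2
    · rintro C ⟨hC1, hC2⟩
      apply map_injective e.symm.toEmbedding
      rw [hmm]
      exact hB3 _ ⟨hC1, map_subset_map.2 hC2⟩

lemma exists_const {P A : Type} [Fintype P] [DecidableEq P] [DecidableEq A]
    {𝓑 : Set (Finset (P → A))} {q r : ℕ} (h : IsSteiner 𝓑 q r) (hs : EvenSymmetricOn univ 𝓑)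
    (hP : 2 * q + 2 < Fintype.card P) : ∃ 𝓒 : Set (Finset A), IsSteiner 𝓒 q r := by
  have : Nonempty P := Fintype.card_pos_iff.1 (by omega)
  have hadm : Adm univ q (fun _ : P => ()) := by
    constructor
    · intro i _ _ _; exact mem_univ i
    · intro i _
      have : (univ.filter (fun j : P => (fun _ : P => ()) j = (fun _ : P => ()) i)) = univ := by
        ext; simp
      rw [this, card_univ]; exact hP
  have hst := restrict_steiner h hs (π := fun _ : P => ()) (fun u => by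
    obtain ⟨i⟩ := this; exact ⟨i, rfl⟩) hadm
  exact ⟨_, transfer (Equiv.funUnique Unit A) hst⟩

lemma le_of_steiner {n q r : ℕ} {𝓑 : Set (Finset (Fin n))} (h : IsSteiner 𝓑 q r) (hr : r ≤ n) :
    q ≤ n := by
  obtain ⟨R, -, hR⟩ := exists_subset_card_eq (s := (univ : Finset (Fin n))) (n := r)
    (by rw [card_univ, Fintype.card_fin]; exact hr)
  obtain ⟨B, ⟨hB, -⟩, -⟩ := h.exists_unique R hR
  rw [← h.card_block B hB]
  exact (card_le_univ B).trans (Fintype.card_fin n).le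

theorem main (k q r : ℕ) (hk : 2 ≤ k) (hr : 2 ≤ r) (hq : r < q) : ∃ N₀ : ℕ,
    (∀ (L : ℕ) (I : Finset (Fin L)), N₀ ≤ I.card → ∀ 𝓑 : Set (Finset (Fin L → Fin k)),
      IsSteiner 𝓑 q r → EvenSymmetricOn I 𝓑 → (r = 2 ∧ IsPrimePow q) ∨ (r = 3 ∧ q = 4)) ∧
    (∀ L : ℕ, N₀ ≤ L →
      ((∃ 𝓑 : Set (Finset (Fin L → Fin k)), IsSteiner 𝓑 q r ∧ EvenSymmetricOn univ 𝓑) ↔
        Cond k q r) ∧
      ((∃ 𝓑 : Set (Finset (Fin L → Fin k)), IsSteiner 𝓑 q r ∧ PositionSymmetric 𝓑) ↔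
        Cond k q r)) := by
  have : Nontrivial (Fin k) := Fin.nontrivial_iff_two_le.2 hk
  have : Nonempty (Fin k) := ⟨⟨0, by omega⟩⟩
  -- the first part
  have h1 : ∃ N₀ : ℕ, ∀ (L : ℕ) (I : Finset (Fin L)), N₀ ≤ I.card →
      ∀ 𝓑 : Set (Finset (Fin L → Fin k)),
      IsSteiner 𝓑 q r → EvenSymmetricOn I 𝓑 → (r = 2 ∧ IsPrimePow q) ∨ (r = 3 ∧ q = 4) := by
    rcases Nat.lt_or_ge r 3 with h3 | h3
    · obtain rfl : r = 2 := by omega
      refine ⟨Fintype.card (Fin k × Fin k) * (2 * q + 3), fun L I hI 𝓑 h hs => ?_⟩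
      exact Or.inl ⟨rfl, primePow_of_symmetric (by omega) h hs hI⟩
    · obtain ⟨N₀, hN₀⟩ := eq_succ_of_symmetric (A := Fin k) q r h3 hq
      refine ⟨max N₀ (r + 3), fun L I hI 𝓑 h hs => ?_⟩
      have hqr := hN₀ (Fin L) I ((le_max_left _ _).trans hI) 𝓑 h hs
      subst hqr
      rcases Nat.lt_or_ge r 4 with h4 | h4
      · obtain rfl : r = 3 := by omega
        exact Or.inr ⟨rfl, rfl⟩
      · exact (no_four r h4 I ((le_max_right _ _).trans hI) 𝓑 h hs).elim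
  obtain ⟨N₁, hN₁⟩ := h1
  have hnec : ∀ L : ℕ, max N₁ (2 * q + 3) ≤ L →
      (∃ 𝓑 : Set (Finset (Fin L → Fin k)), IsSteiner 𝓑 q r ∧ EvenSymmetricOn univ 𝓑) →
      Cond k q r := by
    rintro L hL ⟨𝓑, h, hs⟩
    obtain ⟨𝓒, hC⟩ := exists_const h hs (by
      rw [Fintype.card_fin]; have := (le_max_right N₁ (2 * q + 3)).trans hL; omega)
    rcases hN₁ L univ (by
      rw [card_univ, Fintype.card_fin]; exact (le_max_left _ _).trans hL) 𝓑 h hs with
      ⟨rfl, h2⟩ | ⟨rfl, rfl⟩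
    · exact Or.inl ⟨rfl, h2, by omega, le_of_steiner hC hk, 𝓒, hC⟩
    · refine Or.inr ⟨rfl, rfl, ?_⟩
      rcases Nat.lt_or_ge k 3 with h3 | h3
      · left; omega
      · right; exact ⟨by omega, le_of_steiner hC h3, 𝓒, hC⟩
  have hsuf : ∀ L : ℕ, Cond k q r →
      ∃ 𝓑 : Set (Finset (Fin L → Fin k)), IsSteiner 𝓑 q r ∧ PositionSymmetric 𝓑 := by
    rintro L (⟨rfl, h2, -, -, 𝓒, hC⟩ | ⟨rfl, rfl, h3⟩)
    · exact power_two h2 hC
    · have h4 : ∃ 𝓒 : Set (Finset (Fin k)), IsSteiner 𝓒 4 3 := by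
        rcases h3 with rfl | ⟨-, -, 𝓒, hC⟩
        · refine ⟨∅, fun B hB => absurd hB (by simp), fun R hR => ?_⟩
          have := card_le_univ R
          rw [hR, Fintype.card_fin] at this
          omega
        · exact ⟨𝓒, hC⟩
      obtain ⟨𝓒, hC⟩ := h4
      exact power_three hC
  refine ⟨max N₁ (2 * q + 3), fun L I hI => hN₁ L I ((le_max_left _ _).trans hI), fun L hL => ?_⟩
  have heven : (∃ 𝓑 : Set (Finset (Fin L → Fin k)), IsSteiner 𝓑 q r ∧ PositionSymmetric 𝓑) →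
      ∃ 𝓑 : Set (Finset (Fin L → Fin k)), IsSteiner 𝓑 q r ∧ EvenSymmetricOn univ 𝓑 := by
    rintro ⟨𝓑, h, hs⟩
    exact ⟨𝓑, h, hs.even univ⟩
  exact ⟨⟨hnec L hL, fun hc => heven (hsuf L hc)⟩, ⟨fun h => hnec L hL (heven h), hsuf L⟩⟩

end Pool.Agent.H782.Ste
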