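import Pool.Agent.H782.Ste.Count

set_option autoImplicit false
set_option linter.unusedSectionVars false

/-! There are no symmetric Steiner systems of strength at least four on words. -/

namespace Pool.Agent.H782.Ste

open Finset

variable {P A : Type} [Fintype P] [DecidableEq P] [DecidableEq A] [Fintype A]

lemma pow_parity (k n : ℕ) (hn : n ≠ 0) : k ^ n % 2 = k % 2 := by
  rcases Nat.even_or_odd k with h | h
  · rw [Nat.even_iff.1 h, Nat.even_iff.1 (h.pow_of_ne_zero hn)]
  · rw [Nat.odd_iff.1 h, Nat.odd_iff.1 h.pow]

theorem no_four [Nontrivial A] (r : ℕ) (hr : 4 ≤ r) (I : Finset P) (hI : r + 3 ≤ I.card)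
    (𝓑 : Set (Finset (P → A))) (h : IsSteiner 𝓑 (r + 1) r) (hs : EvenSymmetricOn I 𝓑) :
    False := by
  classical
  have hP : r + 3 ≤ Fintype.card P := hI.trans (card_le_univ I)
  obtain ⟨a, haI, b, hbI, c, hcI, hab, hac, hbc⟩ := two_lt_card.1 (show 2 < I.card by omega)
  obtain ⟨u, v, huv⟩ := exists_pair_ne A
  -- the cyclic permutation
  set σ : Equiv.Perm P := Equiv.swap a b * Equiv.swap b c with hσ
  have hsg : Equiv.Perm.sign σ = 1 := by
    rw [hσ, Equiv.Perm.sign_mul, Equiv.Perm.sign_swap hab, Equiv.Perm.sign_swap hbc]; rfl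
  have sa : σ a = b := by
    rw [hσ, Equiv.Perm.mul_apply, Equiv.swap_apply_of_ne_of_ne hab hac, Equiv.swap_apply_left]
  have sb : σ b = c := by
    rw [hσ, Equiv.Perm.mul_apply, Equiv.swap_apply_left,
      Equiv.swap_apply_of_ne_of_ne hac.symm hbc.symm]
  have sc : σ c = a := by
    rw [hσ, Equiv.Perm.mul_apply, Equiv.swap_apply_right, Equiv.swap_apply_right]
  have so : ∀ x, x ≠ a → x ≠ b → x ≠ c → σ x = x := by
    intro x h1 h2 h3
    rw [hσ, Equiv.Perm.mul_apply, Equiv.swap_apply_of_ne_of_ne h2 h3,
      Equiv.swap_apply_of_ne_of_ne h1 h2]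
  -- the words with one letter `u`
  let e : P → P → A := fun i => Function.update (fun _ => v) i u
  have ei : ∀ i, e i i = u := fun i => Function.update_self _ _ _
  have en : ∀ i x, x ≠ i → e i x = v := fun i x hx => Function.update_of_ne hx _ _
  have einj : ∀ i j, i ≠ j → e i ≠ e j := by
    intro i j hij he
    have := congrFun he i
    rw [ei, en j i hij] at this
    exact huv this
  have eσ : ∀ i, e (σ i) ∘ σ = e i := by
    intro i
    funext x
    simp only [Function.comp]
    by_cases hx : x = i
    · subst hx; rw [ei, ei]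
    · rw [en _ _ (fun h => hx (σ.injective h)), en _ _ hx]
  set O : Finset (P → A) := {e a, e b, e c} with hO
  have hOcard : O.card = 3 := by
    rw [hO, card_insert_of_notMem, card_insert_of_notMem, card_singleton]
    · rw [mem_singleton]; exact einj b c hbc
    · rw [mem_insert, mem_singleton, not_or]; exact ⟨einj a b hab, einj a c hac⟩
  have hOσ : ∀ w ∈ O, w ∘ σ ∈ O := by
    intro w hw
    rw [hO, mem_insert, mem_insert, mem_singleton] at hw ⊢
    rcases hw with rfl | rfl | rfl
    · right; right; rw [← eσ c, sc]
    · left; rw [← eσ a, sa]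
    · right; left; rw [← eσ b, sb]
  -- words which are constant on the cycle
  let T := {x : P // x ≠ b ∧ x ≠ c}
  let π : P → T := fun x => if hx : x ≠ b ∧ x ≠ c then ⟨x, hx⟩ else ⟨a, hab, hac⟩
  have πT : ∀ t : T, π t.1 = t := by
    intro t
    simp only [π]
    rw [dif_pos t.2]
  have πa : π a = ⟨a, hab, hac⟩ := πT ⟨a, hab, hac⟩
  have πb : π b = ⟨a, hab, hac⟩ := by simp only [π]; rw [dif_neg (by tauto)]
  have πc : π c = ⟨a, hab, hac⟩ := by simp only [π]; rw [dif_neg (by tauto)]
  have hsurj : Function.Surjective π := fun t => ⟨t.1, πT t⟩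
  have πσ : ∀ x, π (σ x) = π x := by
    intro x
    by_cases h1 : x = a
    · subst h1; rw [sa, πa, πb]
    · by_cases h2 : x = b
      · subst h2; rw [sb, πb, πc]
      · by_cases h3 : x = c
        · subst h3; rw [sc, πa, πc]
        · rw [so x h1 h2 h3]
  have hfix : ∀ z : P → A, z ∘ σ = z → (fun t : T => z t.1) ∘ π = z := by
    intro z hz
    have hzb : z b = z a := by have := congrFun hz a; simp only [Function.comp, sa] at this; exact this
    have hzc : z c = z b := by have := congrFun hz b; simp only [Function.comp, sb] at this; exact this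
    funext x
    simp only [Function.comp]
    by_cases h2 : x = b
    · subst h2; rw [πb]; exact hzb.symm
    · by_cases h3 : x = c
      · subst h3; rw [πc]; exact (hzc.trans hzb).symm
      · have : π x = ⟨x, h2, h3⟩ := πT ⟨x, h2, h3⟩
        rw [this]
  have hwσ : ∀ w : T → A, (w ∘ π) ∘ σ = w ∘ π := by
    intro w; funext x; simp only [Function.comp, πσ]
  have hOfix : ∀ w : T → A, w ∘ π ∉ O := by
    intro w hw
    have h1 := hwσ w
    rw [hO, mem_insert, mem_insert, mem_singleton] at hw
    rcases hw with hw | hw | hw
    · rw [hw] at h1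
      have : e a ∘ σ = e c := by rw [← eσ c, sc]
      rw [this] at h1
      exact einj a c hac h1.symm
    · rw [hw] at h1
      have : e b ∘ σ = e a := by rw [← eσ a, sa]
      rw [this] at h1
      exact einj a b hab h1
    · rw [hw] at h1
      have : e c ∘ σ = e b := by rw [← eσ b, sb]
      rw [this] at h1
      exact einj b c hbc h1
  have hdisj : ∀ C : Finset (T → A), Disjoint O (C.image (fun w => w ∘ π)) := by
    intro C
    rw [disjoint_right]
    intro w hw
    obtain ⟨w', -, rfl⟩ := mem_image.1 hw
    exact hOfix w'
  have hcardU : ∀ C : Finset (T → A), (O ∪ C.image (fun w => w ∘ π)).card = 3 + C.card := by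
    intro C
    rw [card_union_of_disjoint (hdisj C), hOcard, card_image_of_injective _ (comp_inj hsurj)]
  -- the derived system
  have hder : IsSteiner {C : Finset (T → A) | O ∪ C.image (fun w => w ∘ π) ∈ 𝓑} (r - 2) (r - 3) := by
    constructor
    · intro C hC
      have h1 := h.card_block _ hC
      rw [hcardU] at h1
      omega
    · intro R hR
      have hR' : (O ∪ R.image (fun w => w ∘ π)).card = r := by rw [hcardU, hR]; omega
      obtain ⟨B, ⟨hB1, hB2⟩, hB3⟩ := h.exists_unique _ hR'
      have hBσ : B.image (fun x => x ∘ σ) = B := by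
        apply hB3
        refine ⟨hs σ (fun i hi => so i (fun h => hi (by rw [h]; exact haI))
          (fun h => hi (by rw [h]; exact hbI)) (fun h => hi (by rw [h]; exact hcI))) hsg B hB1, ?_⟩
        have h1 : (O ∪ R.image (fun w => w ∘ π)).image (fun x => x ∘ σ)
            = O ∪ R.image (fun w => w ∘ π) := by
          apply eq_of_subset_of_card_le
          · intro w hw
            obtain ⟨w', hw', rfl⟩ := mem_image.1 hw
            rw [mem_union] at hw' ⊢
            rcases hw' with hw' | hw'
            · left; exact hOσ _ hw'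
            · right
              obtain ⟨w'', hw'', rfl⟩ := mem_image.1 hw'
              simp only [hwσ]
              exact mem_image.2 ⟨w'', hw'', rfl⟩
          · rw [card_image_of_injective _ (σ.surjective.injective_comp_right)]
        intro w hw
        rw [← h1] at hw
        obtain ⟨w', hw', rfl⟩ := mem_image.1 hw
        exact mem_image.2 ⟨w', hB2 hw', rfl⟩
      have h2 : (B \ (O ∪ R.image (fun w => w ∘ π))).card = 1 := by
        rw [card_sdiff_of_subset hB2, h.card_block _ hB1, hR']; omega
      obtain ⟨z, hz⟩ := card_eq_one.1 h2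
      have hzmem : z ∈ B \ (O ∪ R.image (fun w => w ∘ π)) := by rw [hz]; exact mem_singleton_self z
      rw [mem_sdiff] at hzmem
      have hzσ : z ∘ σ = z := by
        have h3 : z ∘ σ ∈ B := by rw [← hBσ]; exact mem_image.2 ⟨z, hzmem.1, rfl⟩
        have h4 : z ∘ σ ∉ O ∪ R.image (fun w => w ∘ π) := by
          intro h5
          apply hzmem.2
          -- the third power of the permutation is the identity
          have h6 : ∀ w : P → A, w ∈ O ∪ R.image (fun w => w ∘ π) →
              w ∘ σ ∈ O ∪ R.image (fun w => w ∘ π) := by
            intro w hw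
            rw [mem_union] at hw ⊢
            rcases hw with hw' | hw'
            · left; exact hOσ _ hw'
            · right
              obtain ⟨w'', hw'', rfl⟩ := mem_image.1 hw'
              rw [hwσ]
              exact mem_image.2 ⟨w'', hw'', rfl⟩
          have h7 : ((z ∘ σ) ∘ σ) ∘ σ = z := by
            funext x
            simp only [Function.comp]
            by_cases h1 : x = a
            · subst h1; rw [sa, sb, sc]
            · by_cases h2 : x = b
              · subst h2; rw [sb, sc, sa]
              · by_cases h3 : x = c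
                · subst h3; rw [sc, sa, sb]
                · rw [so x h1 h2 h3, so x h1 h2 h3, so x h1 h2 h3]
          rw [← h7]
          exact h6 _ (h6 _ h5)
        have h5 : z ∘ σ ∈ B \ (O ∪ R.image (fun w => w ∘ π)) := mem_sdiff.2 ⟨h3, h4⟩
        rw [hz, mem_singleton] at h5
        exact h5
      have hzf := hfix z hzσ
      have hBeq : O ∪ (insert (fun t : T => z t.1) R).image (fun w => w ∘ π) = B := by
        rw [image_insert, hzf, union_insert, insert_eq, ← hz, sdiff_union_of_subset hB2]
      refine ⟨insert (fun t : T => z t.1) R, ⟨?_, subset_insert _ _⟩, ?_⟩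
      · show _ ∈ 𝓑
        rw [hBeq]; exact hB1
      · rintro C ⟨hC1, hC2⟩
        have h3 : O ∪ C.image (fun w => w ∘ π) = B :=
          hB3 _ ⟨hC1, union_subset_union (le_refl _) (image_subset_image hC2)⟩
        apply image_injective (comp_inj (A := A) hsurj)
        have h4 : ∀ D : Finset (T → A), (O ∪ D.image (fun w => w ∘ π)) \ O
            = D.image (fun w => w ∘ π) := by
          intro D
          rw [union_sdiff_left, sdiff_eq_self_of_disjoint (hdisj D).symm]
        show C.image (fun w => w ∘ π) = (insert (fun t : T => z t.1) R).image (fun w => w ∘ π)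
        rw [← h4 C, ← h4 (insert _ R), h3, hBeq]
  -- parity
  have hTcard : Fintype.card P ≤ Fintype.card T + 2 := by
    have h1 : Fintype.card T = ((univ.erase b).erase c).card := by
      rw [Fintype.card_subtype]
      congr 1
      ext x
      simp only [mem_filter, mem_univ, true_and, mem_erase, and_true]
      tauto
    have h2 := pred_card_le_card_erase (s := (univ : Finset P)) (a := b)
    have h3 := pred_card_le_card_erase (s := (univ.erase b : Finset P)) (a := c)
    rw [card_univ] at h2
    omega
  have hA : 2 ≤ Fintype.card A := Fintype.one_lt_card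
  have hpow : ∀ m : ℕ, m ≤ Fintype.card A ^ m := fun m =>
    (Nat.lt_pow_self hA).le
  have hV : Fintype.card (P → A) = Fintype.card A ^ Fintype.card P := Fintype.card_fun
  have hVT : Fintype.card (T → A) = Fintype.card A ^ Fintype.card T := Fintype.card_fun
  have hp1 := hpow (Fintype.card P)
  have hp2 := hpow (Fintype.card T)
  obtain ⟨I', -, hI'⟩ := exists_subset_card_eq (s := (univ : Finset (P → A))) (n := r - 1)
    (by rw [card_univ, hV]; omega)
  obtain ⟨J, -, hJ⟩ := exists_subset_card_eq (s := (univ : Finset (T → A))) (n := r - 4)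
    (by rw [card_univ, hVT]; omega)
  have hd1 := h.dvd I' (by omega)
  have hd2 := hder.dvd J (by omega)
  rw [hI', hV, show r - (r - 1) = 1 by omega, Nat.choose_one_right, Nat.choose_one_right,
    show r + 1 - (r - 1) = 2 by omega] at hd1
  rw [hJ, hVT, show r - 3 - (r - 4) = 1 by omega, Nat.choose_one_right, Nat.choose_one_right,
    show r - 2 - (r - 4) = 2 by omega] at hd2
  have hq1 := pow_parity (Fintype.card A) (Fintype.card P) (by omega)
  have hq2 := pow_parity (Fintype.card A) (Fintype.card T) (by omega)
  omega

end Pool.Agent.H782.Ste
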