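import Mathlib

set_option autoImplicit false
set_option linter.unusedSectionVars false

/-! The degree of a finite sharply 2-transitive group is a prime power. -/

namespace Pool.Agent.H782.Ste

open Finset

section
variable {G X : Type} [Group G] [Finite G] [Fintype X] [MulAction G X]

/-- there is at most one fixed-point-free element which takes `x` to `y` -/
lemma fpf_unique [DecidableEq X]
    (trans : ∀ a b c d : X, a ≠ b → c ≠ d → ∃ g : G, g • a = c ∧ g • b = d)
    (sharp : ∀ (g : G) (a b : X), a ≠ b → g • a = a → g • b = b → g = 1)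
    {x y : X} (hxy : x ≠ y) {τ τ' : G} (h1 : τ • x = y) (h2 : τ' • x = y)
    (hf : ∀ z : X, τ • z ≠ z) (hf' : ∀ z : X, τ' • z ≠ z) : τ = τ' := by
  classical
  by_contra hne
  have key : ∀ g g' : G, ∀ a b : X, a ≠ b → g • a = g' • a → g • b = g' • b → g = g' := by
    intro g g' a b hab ha hb
    have h3 : g'⁻¹ * g = 1 := by
      apply sharp _ a b hab
      · rw [mul_smul, ha, inv_smul_smul]
      · rw [mul_smul, hb, inv_smul_smul]
    exact (inv_mul_eq_one.1 h3).symm
  have hex : ∀ z : X, ∃ g : G, z ≠ x → z ≠ y → (g • x = y ∧ g • z = z) := by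
    intro z
    by_cases h : z ≠ x ∧ z ≠ y
    · obtain ⟨g, hg1, hg2⟩ := trans x z y z (Ne.symm h.1) (Ne.symm h.2)
      exact ⟨g, fun _ _ => ⟨hg1, hg2⟩⟩
    · exact ⟨1, fun h3 h4 => absurd ⟨h3, h4⟩ h⟩
  choose g hg using hex
  -- the map from the points to the group
  let E : X → G := fun z => if z = x then τ else if z = y then τ' else g z
  have hE1 : ∀ z, E z • x = y := by
    intro z
    simp only [E]
    split_ifs with h3 h4
    · exact h1
    · exact h2
    · exact (hg z h3 h4).1
  have hE2 : Function.Injective E := by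
    intro z w hzw
    by_contra hzw'
    simp only [E] at hzw
    split_ifs at hzw with a1 a2 a3 a4 a5 a6 a7 a8
    · exact hzw' (a1.trans a2.symm)
    · exact hne hzw
    · exact hf w (by rw [hzw]; exact (hg w a2 a3).2)
    · exact hne hzw.symm
    · exact hzw' (a4.trans a6.symm)
    · exact hf' w (by rw [hzw]; exact (hg w a5 a6).2)
    · exact hf z (by rw [← hzw]; exact (hg z a1 a4).2)
    · exact hf' z (by rw [← hzw]; exact (hg z a1 a4).2)
    · have b1 := (hg z a1 a4).2
      have b2 := (hg w a7 a8).2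
      rw [← hzw] at b2
      have b3 := sharp _ z w hzw' b1 b2
      have b4 := (hg z a1 a4).1
      rw [b3, one_smul] at b4
      exact hxy b4
  -- evaluate at y
  have hev : Function.Injective (fun z => E z • y) := by
    intro z w hzw
    apply hE2
    exact key _ _ x y hxy (by rw [hE1, hE1]) hzw
  obtain ⟨z, hz⟩ := (Finite.injective_iff_surjective.1 hev) y
  have h5 : E z • x = E z • y := by rw [hE1]; exact hz.symm
  exact hxy (smul_left_cancel _ h5)

theorem primePow_of_sharp (hX : 2 ≤ Fintype.card X)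
    (trans : ∀ a b c d : X, a ≠ b → c ≠ d → ∃ g : G, g • a = c ∧ g • b = d)
    (sharp : ∀ (g : G) (a b : X), a ≠ b → g • a = a → g • b = b → g = 1) :
    IsPrimePow (Fintype.card X) := by
  classical
  have := Fintype.ofFinite G
  obtain ⟨x, y, hxy⟩ := Fintype.exists_pair_of_one_lt_card (α := X) (by omega)
  -- q divides the order of the group
  have hdvd : Fintype.card X ∣ Fintype.card G := by
    have h1 := MulAction.card_orbit_mul_card_stabilizer_eq_card_group G x
    have h2 : MulAction.orbit G x = Set.univ := by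
      ext z
      simp only [Set.mem_univ, iff_true]
      by_cases hz : x = z
      · subst hz; exact MulAction.mem_orbit_self x
      · obtain ⟨g, hg, -⟩ := trans x z z x hz (Ne.symm hz)
        exact ⟨g, hg⟩
    have h3 : Fintype.card (MulAction.orbit G x) = Fintype.card X := by
      rw [Fintype.card_congr (Equiv.setCongr h2), Fintype.card_setUniv]
    rw [h3] at h1
    exact Dvd.intro _ h1
  -- fixed-point-free elements of prime order
  have hfpf : ∀ p : ℕ, p.Prime → p ∣ Fintype.card X → ∃ τ : G, orderOf τ = p ∧ ∀ z : X, τ • z ≠ z := by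
    intro p hp hpX
    have : Fact p.Prime := ⟨hp⟩
    obtain ⟨τ, hτ⟩ := exists_prime_orderOf_dvd_card (G := G) p (hpX.trans hdvd)
    refine ⟨τ, hτ, fun z hz => ?_⟩
    have hpg : IsPGroup p (Subgroup.zpowers τ) := by
      apply IsPGroup.of_card (n := 1)
      rw [Nat.card_zpowers, hτ, pow_one]
    have h1 := hpg.card_modEq_card_fixedPoints X
    have h2 : MulAction.fixedPoints (Subgroup.zpowers τ) X = {z} := by
      ext w
      simp only [MulAction.mem_fixedPoints, Set.mem_singleton_iff]
      constructor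
      · intro hw
        by_contra hwz
        have h3 := hw ⟨τ, Subgroup.mem_zpowers τ⟩
        have h4 : τ = 1 := sharp τ w z hwz h3 hz
        rw [h4, orderOf_one] at hτ
        exact hp.one_lt.ne hτ
      · rintro rfl ⟨m, hm⟩
        obtain ⟨n, rfl⟩ := Subgroup.mem_zpowers_iff.1 hm
        show τ ^ n • w = w
        have : τ ∈ MulAction.stabilizer G w := hz
        exact (MulAction.stabilizer G w).zpow_mem this n
    rw [h2] at h1
    simp only [Nat.card_eq_fintype_card, Fintype.card_unique] at h1
    have h5 : Fintype.card X ≡ 0 [MOD p] := (Nat.modEq_zero_iff_dvd).2 hpX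
    have h6 := h1.symm.trans h5
    have h7 := (Nat.modEq_zero_iff_dvd).1 h6
    exact hp.one_lt.ne' (Nat.dvd_one.1 h7)
  rw [isPrimePow_iff_unique_prime_dvd]
  obtain ⟨p, hp, hpX⟩ := Nat.exists_prime_and_dvd (n := Fintype.card X) (by omega)
  refine ⟨p, ⟨hp, hpX⟩, ?_⟩
  rintro p' ⟨hp', hpX'⟩
  obtain ⟨τ, hτ, hτf⟩ := hfpf p hp hpX
  obtain ⟨τ', hτ', hτf'⟩ := hfpf p' hp' hpX'
  -- conjugate
  obtain ⟨s, hs1, hs2⟩ := trans x (τ • x) x (τ' • x) (Ne.symm (hτf x)) (Ne.symm (hτf' x))
  have h8 : s * τ * s⁻¹ = τ' := by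
    apply fpf_unique trans sharp (x := x) (y := τ' • x) (Ne.symm (hτf' x)) _ rfl _ hτf'
    · have : s⁻¹ • x = x := by rw [inv_smul_eq_iff, hs1]
      rw [mul_smul, mul_smul, this, hs2]
    · intro z hz
      apply hτf (s⁻¹ • z)
      rw [mul_smul, mul_smul] at hz
      rw [eq_inv_smul_iff]; exact hz
  rw [← hτ', ← hτ, ← h8, ← MulAut.conj_apply]
  exact (orderOf_injective (MulAut.conj s).toMonoidHom (MulAut.conj s).injective τ)

end

end Pool.Agent.H782.Ste
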