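import Pool.Agent.H782.Ste.Basic
import Pool.Agent.H782.Ste.Coherent

set_option autoImplicit false
set_option linter.unusedSectionVars false

/-! Symmetric Steiner systems of strength two: the block size is a prime power. -/

namespace Pool.Agent.H782.Ste

open Finset

section line
variable {V : Type} [DecidableEq V]

open Classical in
/-- a block through two points -/
noncomputable def line (𝓒 : Set (Finset V)) (x y : V) : Finset V :=
  if h : ∃ B, B ∈ 𝓒 ∧ x ∈ B ∧ y ∈ B then h.choose else ∅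

lemma line_mem {𝓒 : Set (Finset V)} {q : ℕ} (h : IsSteiner 𝓒 q 2) {x y : V} (hxy : x ≠ y) :
    line 𝓒 x y ∈ 𝓒 ∧ x ∈ line 𝓒 x y ∧ y ∈ line 𝓒 x y := by
  have h1 : ∃ B, B ∈ 𝓒 ∧ x ∈ B ∧ y ∈ B := by
    obtain ⟨B, ⟨hB1, hB2⟩, -⟩ := h.exists_unique {x, y} (card_pair hxy)
    exact ⟨B, hB1, hB2 (by simp), hB2 (by simp)⟩
  unfold line
  rw [dif_pos h1]
  exact h1.choose_spec

lemma line_unique {𝓒 : Set (Finset V)} {q : ℕ} (h : IsSteiner 𝓒 q 2) {x y : V} (hxy : x ≠ y)
    {B : Finset V} (hB : B ∈ 𝓒) (hx : x ∈ B) (hy : y ∈ B) : B = line 𝓒 x y := by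
  obtain ⟨h1, h2, h3⟩ := line_mem h hxy
  apply (h.exists_unique {x, y} (card_pair hxy)).unique ⟨hB, ?_⟩ ⟨h1, ?_⟩
  · intro z hz; rw [mem_insert, mem_singleton] at hz; rcases hz with rfl | rfl <;> assumption
  · intro z hz; rw [mem_insert, mem_singleton] at hz; rcases hz with rfl | rfl <;> assumption

end line

section maps
variable {P : Type} [Fintype P] [DecidableEq P] {T : Type} [DecidableEq T]

lemma exists_perm (p p' : P → T)
    (h : ∀ s, (univ.filter (fun i => p i = s)).card = (univ.filter (fun i => p' i = s)).card) :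
    ∃ σ : Equiv.Perm P, p' = p ∘ σ := by
  have e : ∀ s : T, Nonempty ({i // p' i = s} ≃ {i // p i = s}) := by
    intro s
    refine ⟨Fintype.equivOfCardEq ?_⟩
    rw [Fintype.card_subtype, Fintype.card_subtype, h s]
  let e' : ∀ s : T, {i // p' i = s} ≃ {i // p i = s} := fun s => (e s).some
  refine ⟨(Equiv.sigmaFiberEquiv p').symm.trans ((Equiv.sigmaCongrRight e').trans
    (Equiv.sigmaFiberEquiv p)), ?_⟩
  funext i
  simp only [Function.comp, Equiv.trans_apply]
  exact ((e' (p' i)) ⟨i, rfl⟩).2.symm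

lemma exists_even_perm (p p' : P → T)
    (h : ∀ s, (univ.filter (fun i => p i = s)).card = (univ.filter (fun i => p' i = s)).card)
    (hp : ∃ i j, i ≠ j ∧ p i = p j) :
    ∃ σ : Equiv.Perm P, Equiv.Perm.sign σ = 1 ∧ p' = p ∘ σ := by
  obtain ⟨σ, hσ⟩ := exists_perm p p' h
  rcases Int.units_eq_one_or (Equiv.Perm.sign σ) with h0 | h0
  · exact ⟨σ, h0, hσ⟩
  · obtain ⟨i, j, hij, hpij⟩ := hp
    refine ⟨Equiv.swap i j * σ, ?_, ?_⟩
    · rw [Equiv.Perm.sign_mul, Equiv.Perm.sign_swap hij, h0]; rfl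
    · have hsw : p ∘ (Equiv.swap i j) = p := by
        funext x
        simp only [Function.comp]
        by_cases hxa : x = i
        · subst hxa; rw [Equiv.swap_apply_left]; exact hpij.symm
        · by_cases hxl : x = j
          · subst hxl; rw [Equiv.swap_apply_right]; exact hpij
          · rw [Equiv.swap_apply_of_ne_of_ne hxa hxl]
      rw [hσ]
      funext x
      have := congrFun hsw (σ x)
      simp only [Function.comp, Equiv.Perm.mul_apply] at this ⊢
      rw [this]

lemma exists_map [Fintype T] (n : T → ℕ) (h : ∑ s, n s = Fintype.card P) :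
    ∃ p : P → T, ∀ s, (univ.filter (fun i => p i = s)).card = n s := by
  have h1 : Fintype.card P = Fintype.card (Σ s : T, Fin (n s)) := by
    rw [Fintype.card_sigma]; simp [h]
  let e : P ≃ Σ s : T, Fin (n s) := Fintype.equivOfCardEq h1
  refine ⟨fun i => (e i).1, fun s => ?_⟩
  have h2 : (univ.filter (fun i => (e i).1 = s)).card
      = (univ.filter (fun x : Σ s : T, Fin (n s) => x.1 = s)).card := by
    apply card_bij (fun i _ => e i)
    · intro i hi; rw [mem_filter] at hi ⊢; exact ⟨mem_univ _, hi.2⟩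
    · intro i _ j _ hij; exact e.injective hij
    · intro x hx
      rw [mem_filter] at hx
      exact ⟨e.symm x, by rw [mem_filter]; simp [hx.2], by simp⟩
  rw [h2]
  have h3 : (univ.filter (fun x : Σ s : T, Fin (n s) => x.1 = s))
      = (univ : Finset (Fin (n s))).map ⟨fun j => (⟨s, j⟩ : Σ s : T, Fin (n s)),
        fun a b hab => by simpa using hab⟩ := by
    ext ⟨s', j⟩
    simp only [mem_filter, mem_univ, true_and, mem_map, Function.Embedding.coeFn_mk]
    constructor
    · rintro rfl; exact ⟨j, rfl⟩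
    · rintro ⟨j', hj⟩
      exact (congrArg Sigma.fst hj).symm
  rw [h3, card_map, card_univ, Fintype.card_fin]

/-- all fibres but the one of `t` have `m` elements -/
def sizes (P : Type) [Fintype P] {T : Type} [Fintype T] [DecidableEq T] (m : ℕ) (t s : T) : ℕ :=
  if s = t then Fintype.card P - (Fintype.card T - 1) * m else m

lemma sum_sizes [Fintype T] (m : ℕ) (t : T) (hP : Fintype.card T * m ≤ Fintype.card P) :
    ∑ s, sizes P m t s = Fintype.card P := by
  have hle : (Fintype.card T - 1) * m ≤ Fintype.card P :=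
    le_trans (Nat.mul_le_mul_right _ (by omega)) hP
  simp only [sizes]
  rw [← Finset.add_sum_erase univ _ (mem_univ t), if_pos rfl]
  have h1 : ∀ s ∈ univ.erase t, (if s = t then Fintype.card P - (Fintype.card T - 1) * m
      else m) = m := fun s hs => if_neg (ne_of_mem_erase hs)
  rw [sum_congr rfl h1, sum_const, card_erase_of_mem (mem_univ t), card_univ, smul_eq_mul]
  omega

lemma le_sizes [Fintype T] (m : ℕ) (t s : T) (hP : Fintype.card T * m ≤ Fintype.card P) :
    m ≤ sizes P m t s := by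
  have hK1 : 1 ≤ Fintype.card T := Fintype.card_pos_iff.2 ⟨t⟩
  unfold sizes
  split_ifs with h1
  · have h2 : Fintype.card T * m = (Fintype.card T - 1) * m + m := by
      rw [← Nat.succ_mul]; congr 1; omega
    omega
  · exact le_rfl

end maps

section
variable {P A : Type} [Fintype P] [DecidableEq P] [DecidableEq A] [Fintype A]

lemma fst_ne_snd [Nontrivial A] : (Prod.fst : A × A → A) ≠ Prod.snd := by
  obtain ⟨x, y, hxy⟩ := exists_pair_ne A
  intro h; exact hxy (congrFun h (x, y))

/-- the word with the letters `f.1 (p i)` at the positions in `I`, and the letters `f.2` at the other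
positions -/
def wd (I : Finset P) (p : {i // i ∈ I} → A × A) (f : Op A ({i // i ∉ I} → A)) : P → A :=
  fun i => if h : i ∈ I then f.1 (p ⟨i, h⟩) else f.2 ⟨i, h⟩

lemma wd_in {I : Finset P} {p : {i // i ∈ I} → A × A} {f : Op A ({i // i ∉ I} → A)}
    (i : {i // i ∈ I}) : wd I p f i = f.1 (p i) := by
  unfold wd; rw [dif_pos i.2]

lemma wd_out {I : Finset P} {p : {i // i ∈ I} → A × A} {f : Op A ({i // i ∉ I} → A)}
    (i : {i // i ∉ I}) : wd I p f i = f.2 i := by
  unfold wd; rw [dif_neg i.2]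

lemma wd_inj {I : Finset P} {p : {i // i ∈ I} → A × A} (hp : Function.Surjective p) :
    Function.Injective (wd I p : Op A ({i // i ∉ I} → A) → P → A) := by
  intro f g hfg
  apply Prod.ext
  · funext s
    obtain ⟨i, rfl⟩ := hp s
    rw [← wd_in, ← wd_in, hfg]
  · funext i
    rw [← wd_out (p := p), ← wd_out (p := p), hfg]

/-- the partition of the positions defined by `p` on `I`, with single positions outside `I` -/
def part (I : Finset P) {T : Type} (p : {i // i ∈ I} → T) : P → T ⊕ {i // i ∉ I} :=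
  fun i => if h : i ∈ I then Sum.inl (p ⟨i, h⟩) else Sum.inr ⟨i, h⟩

lemma part_in {I : Finset P} {T : Type} {p : {i // i ∈ I} → T} (i : {i // i ∈ I}) :
    part I p i = Sum.inl (p i) := by
  unfold part; rw [dif_pos i.2]

lemma part_out {I : Finset P} {T : Type} {p : {i // i ∈ I} → T} (i : {i // i ∉ I}) :
    part I p i = Sum.inr i := by
  unfold part; rw [dif_neg i.2]

lemma part_adm {I : Finset P} {T : Type} [DecidableEq T] {p : {i // i ∈ I} → T} {q : ℕ}
    (hp : ∀ i, 2 * q + 2 < (univ.filter (fun j => p j = p i)).card) : Adm I q (part I p) := by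
  constructor
  · intro i j hij hne
    by_contra hi
    have h1 : part I p i = Sum.inr ⟨i, hi⟩ := part_out ⟨i, hi⟩
    by_cases hj : j ∈ I
    · have h2 : part I p j = Sum.inl (p ⟨j, hj⟩) := part_in ⟨j, hj⟩
      rw [h1, h2] at hij
      exact absurd hij (by simp)
    · have h2 : part I p j = Sum.inr ⟨j, hj⟩ := part_out ⟨j, hj⟩
      rw [h1, h2] at hij
      exact hne (congrArg Subtype.val (Sum.inr.inj hij))
  · intro i hi
    refine lt_of_lt_of_le (hp ⟨i, hi⟩) ?_
    apply card_le_card_of_injOn (fun j => j.1)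
    · intro j hj
      rw [mem_coe, mem_filter] at hj ⊢
      refine ⟨mem_univ _, ?_⟩
      rw [part_in j, hj.2]
      exact (part_in ⟨i, hi⟩).symm
    · intro j _ j' _ h
      exact Subtype.ext h

lemma part_surj {I : Finset P} {T : Type} {p : {i // i ∈ I} → T} (hp : Function.Surjective p) :
    Function.Surjective (part I p) := by
  rintro (t | i)
  · obtain ⟨i, rfl⟩ := hp t
    exact ⟨i, part_in i⟩
  · exact ⟨i, part_out i⟩

lemma large_comp {Q T S : Type} [Fintype Q] [DecidableEq T] [DecidableEq S] {p : Q → T} {q : ℕ}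
    (hp : ∀ i, 2 * q + 2 < (univ.filter (fun j => p j = p i)).card) (φ : T → S) :
    ∀ i, 2 * q + 2 < (univ.filter (fun j => φ (p j) = φ (p i))).card := by
  intro i
  refine lt_of_lt_of_le (hp i) (card_le_card ?_)
  intro j hj
  rw [mem_filter] at hj ⊢
  exact ⟨hj.1, by rw [hj.2]⟩

/-- the tagged operations on the line through the two projections -/
noncomputable def ops (I : Finset P) (𝓑 : Set (Finset (P → A))) (p : {i // i ∈ I} → A × A)
    (c d : {i // i ∉ I} → A) : Finset (Op A ({i // i ∉ I} → A)) :=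
  univ.filter (fun f => wd I p f ∈ line 𝓑 (wd I p (Prod.fst, c)) (wd I p (Prod.snd, d)))

lemma mem_ops {I : Finset P} {𝓑 : Set (Finset (P → A))} {p : {i // i ∈ I} → A × A}
    {c d : {i // i ∉ I} → A} {f : Op A ({i // i ∉ I} → A)} : f ∈ ops I 𝓑 p c d ↔
      wd I p f ∈ line 𝓑 (wd I p (Prod.fst, c)) (wd I p (Prod.snd, d)) := by
  unfold ops; rw [mem_filter]; simp

variable [Nontrivial A] {I : Finset P} {𝓑 : Set (Finset (P → A))} {q : ℕ}
  {p : {i // i ∈ I} → A × A}

lemma proj_ne (hsurj : Function.Surjective p) (c d : {i // i ∉ I} → A) :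
    wd I p (Prod.fst, c) ≠ wd I p (Prod.snd, d) := by
  intro h
  have h1 := wd_inj hsurj h
  rw [Prod.mk.injEq] at h1
  exact fst_ne_snd h1.1

/-- points on the line through two words of the form `wd` have this form -/
lemma line_const (h : IsSteiner 𝓑 q 2) (hs : EvenSymmetricOn I 𝓑)
    {T : Type} [DecidableEq T] {p : {i // i ∈ I} → T}
    (hp : ∀ i, 2 * q + 2 < (univ.filter (fun j => p j = p i)).card)
    {x y : P → A} (hxy : x ≠ y) (hx : ∀ i j, part I p i = part I p j → x i = x j)
    (hy : ∀ i j, part I p i = part I p j → y i = y j) {z : P → A} (hz : z ∈ line 𝓑 x y) :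
    ∀ i j, part I p i = part I p j → z i = z j := by
  obtain ⟨h1, h2, h3⟩ := line_mem h hxy
  apply factor h hs (part_adm hp) (card_pair hxy) _ h1 _ z hz
  · intro w hw
    rw [mem_insert, mem_singleton] at hw
    rcases hw with rfl | rfl
    · exact hx
    · exact hy
  · intro w hw
    rw [mem_insert, mem_singleton] at hw
    rcases hw with rfl | rfl
    · exact h2
    · exact h3

lemma wd_const (f : Op A ({i // i ∉ I} → A)) : ∀ i j, part I p i = part I p j →
    wd I p f i = wd I p f j := by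
  intro i j hij
  by_cases hi : i ∈ I <;> by_cases hj : j ∈ I
  · have h1 := part_in (p := p) ⟨i, hi⟩
    have h2 := part_in (p := p) ⟨j, hj⟩
    simp only at h1 h2
    rw [h1, h2] at hij
    have h3 := Sum.inl.inj hij
    have h4 : wd I p f i = f.1 (p ⟨i, hi⟩) := wd_in ⟨i, hi⟩
    have h5 : wd I p f j = f.1 (p ⟨j, hj⟩) := wd_in ⟨j, hj⟩
    rw [h4, h5, h3]
  · have h1 := part_in (p := p) ⟨i, hi⟩
    have h2 := part_out (p := p) ⟨j, hj⟩
    simp only at h1 h2
    rw [h1, h2] at hij
    exact absurd hij (by simp)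
  · have h1 := part_out (p := p) ⟨i, hi⟩
    have h2 := part_in (p := p) ⟨j, hj⟩
    simp only at h1 h2
    rw [h1, h2] at hij
    exact absurd hij (by simp)
  · have h1 := part_out (p := p) ⟨i, hi⟩
    have h2 := part_out (p := p) ⟨j, hj⟩
    simp only at h1 h2
    rw [h1, h2] at hij
    have h3 := congrArg Subtype.val (Sum.inr.inj hij)
    simp only at h3
    rw [h3]

lemma exists_wd (hsurj : Function.Surjective p) {z : P → A}
    (hz : ∀ i j, part I p i = part I p j → z i = z j) : ∃ f, wd I p f = z := by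
  set f : Op A ({i // i ∉ I} → A) := (fun s : A × A => z (Function.surjInv hsurj s).1,
    fun i => z i.1) with hf
  refine ⟨f, ?_⟩
  funext i
  by_cases hi : i ∈ I
  · have h1 : wd I p f i = f.1 (p ⟨i, hi⟩) := wd_in ⟨i, hi⟩
    rw [h1]
    apply hz
    rw [part_in]
    have h2 : part I p i = Sum.inl (p ⟨i, hi⟩) := part_in ⟨i, hi⟩
    rw [h2, Function.surjInv_eq hsurj]
  · exact wd_out (p := p) (f := f) ⟨i, hi⟩

lemma card_ops (h : IsSteiner 𝓑 q 2) (hs : EvenSymmetricOn I 𝓑) (hsurj : Function.Surjective p)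
    (hp : ∀ i, 2 * q + 2 < (univ.filter (fun j => p j = p i)).card)
    (c d : {i // i ∉ I} → A) : (ops I 𝓑 p c d).card = q := by
  have hne := proj_ne hsurj c d
  obtain ⟨h1, h2, h3⟩ := line_mem h hne
  rw [← h.card_block _ h1]
  apply card_bij (fun f _ => wd I p f)
  · intro f hf; exact mem_ops.1 hf
  · intro f _ g _ hfg; exact wd_inj hsurj hfg
  · intro z hz
    obtain ⟨f, rfl⟩ := exists_wd hsurj (line_const h hs hp hne (wd_const _) (wd_const _) hz)
    exact ⟨f, mem_ops.2 hz, rfl⟩

lemma bij_of_mem (h : IsSteiner 𝓑 q 2) (hs : EvenSymmetricOn I 𝓑)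
    (hsurj : Function.Surjective p)
    (hp : ∀ i, 2 * q + 2 < (univ.filter (fun j => p j = p i)).card)
    {c d : {i // i ∉ I} → A} {g k : Op A ({i // i ∉ I} → A)}
    (hg : g ∈ ops I 𝓑 p c d) (hk : k ∈ ops I 𝓑 p c d) (hgk : g ≠ k) :
    Function.Bijective (fun s : A × A => (g.1 s, k.1 s)) := by
  have hne := proj_ne hsurj c d
  obtain ⟨h1, h2, h3⟩ := line_mem h hne
  have hgk' : wd I p g ≠ wd I p k := fun he => hgk (wd_inj hsurj he)
  have hL := line_unique h hgk' h1 (mem_ops.1 hg) (mem_ops.1 hk)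
  have hp' := large_comp hp (fun s : A × A => (g.1 s, k.1 s))
  have key : ∀ f : Op A ({i // i ∉ I} → A), f ∈ ({g, k} : Set (Op A ({i // i ∉ I} → A))) →
      ∀ i j, part I (fun i => (g.1 (p i), k.1 (p i))) i = part I (fun i => (g.1 (p i), k.1 (p i))) j →
      wd I p f i = wd I p f j := by
    intro f hf i j hij
    by_cases hi : i ∈ I <;> by_cases hj : j ∈ I
    · have h1 := part_in (p := fun i => (g.1 (p i), k.1 (p i))) ⟨i, hi⟩
      have h2 := part_in (p := fun i => (g.1 (p i), k.1 (p i))) ⟨j, hj⟩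
      simp only at h1 h2
      rw [h1, h2] at hij
      have h3 := Sum.inl.inj hij
      rw [Prod.mk.injEq] at h3
      have h4 : wd I p f i = f.1 (p ⟨i, hi⟩) := wd_in ⟨i, hi⟩
      have h5 : wd I p f j = f.1 (p ⟨j, hj⟩) := wd_in ⟨j, hj⟩
      rw [h4, h5]
      rcases hf with rfl | rfl
      · exact h3.1
      · exact h3.2
    · have h1 := part_in (p := fun i => (g.1 (p i), k.1 (p i))) ⟨i, hi⟩
      have h2 := part_out (p := fun i => (g.1 (p i), k.1 (p i))) ⟨j, hj⟩
      simp only at h1 h2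
      rw [h1, h2] at hij
      exact absurd hij (by simp)
    · have h1 := part_out (p := fun i => (g.1 (p i), k.1 (p i))) ⟨i, hi⟩
      have h2 := part_in (p := fun i => (g.1 (p i), k.1 (p i))) ⟨j, hj⟩
      simp only at h1 h2
      rw [h1, h2] at hij
      exact absurd hij (by simp)
    · have h1 := part_out (p := fun i => (g.1 (p i), k.1 (p i))) ⟨i, hi⟩
      have h2 := part_out (p := fun i => (g.1 (p i), k.1 (p i))) ⟨j, hj⟩
      simp only at h1 h2
      rw [h1, h2] at hij
      have h3 := congrArg Subtype.val (Sum.inr.inj hij)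
      simp only at h3
      rw [h3]
  have hx : wd I p (Prod.fst, c) ∈ line 𝓑 (wd I p g) (wd I p k) := by rw [← hL]; exact h2
  have hy : wd I p (Prod.snd, d) ∈ line 𝓑 (wd I p g) (wd I p k) := by rw [← hL]; exact h3
  have h6 := line_const h hs hp' hgk' (key g (by simp)) (key k (by simp)) hx
  have h7 := line_const h hs hp' hgk' (key g (by simp)) (key k (by simp)) hy
  rw [← Finite.injective_iff_bijective]
  intro s s' hss
  obtain ⟨i, rfl⟩ := hsurj s
  obtain ⟨j, rfl⟩ := hsurj s'
  have hij : part I (fun i => (g.1 (p i), k.1 (p i))) i = part I (fun i => (g.1 (p i), k.1 (p i))) j := by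
    rw [part_in, part_in]; exact congrArg _ hss
  have h8 := h6 i j hij
  have h9 := h7 i j hij
  rw [wd_in, wd_in] at h8 h9
  exact Prod.ext h8 h9

lemma ops_comp (h : IsSteiner 𝓑 q 2) (hsurj : Function.Surjective p)
    {c d : {i // i ∉ I} → A} {g k : Op A ({i // i ∉ I} → A)}
    (hg : g ∈ ops I 𝓑 p c d) (hk : k ∈ ops I 𝓑 p c d) (hgk : g ≠ k)
    (f : Op A ({i // i ∉ I} → A)) :
    f ∈ ops I 𝓑 (fun i => (g.1 (p i), k.1 (p i))) g.2 k.2 ↔
      (fun s => f.1 (g.1 s, k.1 s), f.2) ∈ ops I 𝓑 p c d := by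
  have hne := proj_ne hsurj c d
  obtain ⟨h1, h2, h3⟩ := line_mem h hne
  have hgk' : wd I p g ≠ wd I p k := fun he => hgk (wd_inj hsurj he)
  have hL := line_unique h hgk' h1 (mem_ops.1 hg) (mem_ops.1 hk)
  have e1 : ∀ f : Op A ({i // i ∉ I} → A), wd I (fun i => (g.1 (p i), k.1 (p i))) f
      = wd I p (fun s => f.1 (g.1 s, k.1 s), f.2) := fun f => rfl
  rw [mem_ops, mem_ops, hL, e1, e1, e1]

/-- the extension of a permutation of `I` -/
def ext' (σ : Equiv.Perm {i // i ∈ I}) : Equiv.Perm P := Equiv.Perm.ofSubtype σ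

lemma wd_perm (σ : Equiv.Perm {i // i ∈ I}) (f : Op A ({i // i ∉ I} → A)) :
    wd I (p ∘ σ) f = wd I p f ∘ (Equiv.Perm.ofSubtype σ : Equiv.Perm P) := by
  funext i
  simp only [Function.comp]
  by_cases hi : i ∈ I
  · have h1 : (Equiv.Perm.ofSubtype σ : Equiv.Perm P) i = (σ ⟨i, hi⟩ : P) :=
      Equiv.Perm.ofSubtype_apply_of_mem σ hi
    rw [h1, wd_in]
    exact wd_in ⟨i, hi⟩
  · have h1 : (Equiv.Perm.ofSubtype σ : Equiv.Perm P) i = i :=
      Equiv.Perm.ofSubtype_apply_of_not_mem σ hi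
    rw [h1]
    have h2 : wd I p f i = f.2 ⟨i, hi⟩ := wd_out ⟨i, hi⟩
    rw [h2]
    exact wd_out ⟨i, hi⟩

lemma ops_perm (h : IsSteiner 𝓑 q 2) (hs : EvenSymmetricOn I 𝓑) (hsurj : Function.Surjective p)
    (σ : Equiv.Perm {i // i ∈ I}) (hσ : Equiv.Perm.sign σ = 1) (c d : {i // i ∉ I} → A) :
    ops I 𝓑 (p ∘ σ) c d = ops I 𝓑 p c d := by
  set τ : Equiv.Perm P := Equiv.Perm.ofSubtype σ with hτ
  have hne := proj_ne hsurj c d
  obtain ⟨h1, h2, h3⟩ := line_mem h hne
  have h4 : (line 𝓑 (wd I p (Prod.fst, c)) (wd I p (Prod.snd, d))).image (fun x => x ∘ τ) ∈ 𝓑 := by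
    apply hs τ _ _ _ h1
    · intro i hi
      exact Equiv.Perm.ofSubtype_apply_of_not_mem σ hi
    · rw [hτ, Equiv.Perm.sign_ofSubtype, hσ]
  have hne' : wd I p (Prod.fst, c) ∘ τ ≠ wd I p (Prod.snd, d) ∘ τ := fun he =>
    hne (τ.surjective.injective_comp_right he)
  have h5 := line_unique h hne' h4 (mem_image.2 ⟨_, h2, rfl⟩) (mem_image.2 ⟨_, h3, rfl⟩)
  ext f
  rw [mem_ops, mem_ops, wd_perm, wd_perm, wd_perm, ← h5]
  constructor
  · intro hf
    obtain ⟨z, hz, he⟩ := mem_image.1 hf
    rw [← τ.surjective.injective_comp_right he]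
    exact hz
  · intro hf
    exact mem_image.2 ⟨_, hf, rfl⟩

/-- A symmetric Steiner system of strength 2 on words gives a coherent family. -/
theorem exists_coherent (h : IsSteiner 𝓑 q 2) (hs : EvenSymmetricOn I 𝓑)
    (hP : Fintype.card (A × A) * (2 * q + 3) ≤ I.card) :
    ∃ F : (A × ({i // i ∉ I} → A)) × (A × ({i // i ∉ I} → A)) →
      Finset (Op A ({i // i ∉ I} → A)), Coherent F q := by
  classical
  have hP' : Fintype.card (A × A) * (2 * q + 3) ≤ Fintype.card {i // i ∈ I} := by
    rwa [Fintype.card_coe]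
  choose p hp using fun t : A × A => exists_map (P := {i // i ∈ I})
    (sizes {i // i ∈ I} (2 * q + 3) t) (sum_sizes (2 * q + 3) t hP')
  have hlarge : ∀ t, ∀ i, 2 * q + 2 < (univ.filter (fun j => p t j = p t i)).card := by
    intro t i; rw [hp]; exact le_sizes _ t _ hP'
  have hsurj : ∀ t, Function.Surjective (p t) := by
    intro t s
    have h1 : 0 < (univ.filter (fun j => p t j = s)).card := by
      rw [hp]; have := le_sizes (P := {i // i ∈ I}) _ t s hP'; omega
    obtain ⟨i, hi⟩ := card_pos.1 h1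
    exact ⟨i, (mem_filter.1 hi).2⟩
  refine ⟨fun o => ops I 𝓑 (p (o.1.1, o.2.1)) o.1.2 o.2.2, ?_, ?_, ?_, ?_, ?_⟩
  · intro o
    exact card_ops h hs (hsurj _) (hlarge _) _ _
  · intro o
    exact mem_ops.2 (line_mem h (proj_ne (hsurj _) _ _)).2.1
  · intro o
    exact mem_ops.2 (line_mem h (proj_ne (hsurj _) _ _)).2.2
  · intro o g hg k hk hgk
    exact bij_of_mem h hs (hsurj _) (hlarge _) hg hk hgk
  · intro o g hg k hk hgk f
    set t : A × A := (o.1.1, o.2.1) with ht
    have hbij := bij_of_mem h hs (hsurj _) (hlarge _) hg hk hgk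
    rw [← ops_comp h (hsurj _) hg hk hgk f]
    show f ∈ ops I 𝓑 (p (g.1 t, k.1 t)) g.2 k.2 ↔ _
    obtain ⟨σ, hσ1, hσ⟩ := exists_even_perm (fun i => (g.1 (p t i), k.1 (p t i)))
      (p (g.1 t, k.1 t)) (by
      intro s
      obtain ⟨s', rfl⟩ := hbij.2 s
      rw [hp]
      have h1 : (univ.filter (fun i => (g.1 (p t i), k.1 (p t i)) = (fun s => (g.1 s, k.1 s)) s'))
          = univ.filter (fun i => p t i = s') := by
        ext i
        simp only [mem_filter, mem_univ, true_and]
        constructor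
        · intro h2; exact hbij.1 h2
        · intro h2; rw [h2]
      rw [h1, hp]
      simp only [sizes]
      by_cases h2 : s' = t
      · rw [if_pos h2, if_pos (by rw [h2])]
      · rw [if_neg h2, if_neg (fun h3 => h2 (hbij.1 h3))]) (by
      obtain ⟨i₀, -⟩ := hsurj t t
      have h1 : 1 < (univ.filter (fun j => p t j = p t i₀)).card := by
        have := hlarge t i₀; omega
      obtain ⟨i, hi, j, hj, hij⟩ := one_lt_card.1 h1
      rw [mem_filter] at hi hj
      exact ⟨i, j, hij, by simp only [hi.2, hj.2]⟩)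
    have h10 := ops_perm h hs (p := fun i => (g.1 (p t i), k.1 (p t i)))
      (hbij.2.comp (hsurj t)) σ hσ1 g.2 k.2
    rw [hσ, h10]

theorem primePow_of_symmetric (hq : 3 ≤ q) (h : IsSteiner 𝓑 q 2) (hs : EvenSymmetricOn I 𝓑)
    (hP : Fintype.card (A × A) * (2 * q + 3) ≤ I.card) : IsPrimePow q := by
  obtain ⟨F, hF⟩ := exists_coherent h hs hP
  exact hF.isPrimePow hq

end

end Pool.Agent.H782.Ste
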